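import Mathlib
import Pool.Agent.Lib.MP_c527bb_lc.Glue

/-!
Back-and-forth between `d`-regular graphs of large girth.
-/

set_option autoImplicit false

open Relation

namespace Pool.Agent.Lib.MP_c527bb_lc.K

/-- Regular graphs of degree at least four without short cycles. -/
structure Base {V : Type} (d : ℕ) (G : SimpleGraph V) (M : ℕ) : Prop where
  ne : Nonempty V
  four : 4 ≤ d
  reg : ∀ v, (G.neighborSet v).ncard = d
  cyc : NoCyc G M

variable {V W : Type} {G : SimpleGraph V} {H : SimpleGraph W} {d : ℕ}

theorem near_trans {r s : ℕ} {u v w : V} (h : Near G r u v) (h' : Near G s v w) :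
    Near G (r + s) u w :=
  let ⟨p, hp⟩ := h; let ⟨q, hq⟩ := h'; ⟨p.append q, by simp; omega⟩

theorem Base.mono {M M' : ℕ} (h : Base d G M) (hM : M' ≤ M) : Base d G M' :=
  ⟨h.ne, h.four, h.reg, fun A hA => h.cyc A (hA.trans_le hM)⟩

theorem Base.fin {M : ℕ} (h : Base d G M) (v : V) : (G.neighborSet v).Finite :=
  Set.finite_of_ncard_ne_zero (by rw [h.reg]; have := h.four; omega)

theorem Base.exists_nbr {M : ℕ} (h : Base d G M) (v a b c : V) :
    ∃ z, G.Adj v z ∧ z ≠ a ∧ z ≠ b ∧ z ≠ c := by
  by_contra hc
  push Not at hc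
  have hsub : G.neighborSet v ⊆ {a, b, c} := by
    intro z hz
    by_cases h1 : z = a
    · simp [h1]
    · by_cases h2 : z = b
      · simp [h2]
      · simp [hc z hz h1 h2]
  have h1 := Set.ncard_le_ncard hsub (Set.toFinite _)
  have h2 : ({a, b, c} : Set V).ncard ≤ 3 := by
    refine (Set.ncard_insert_le _ _).trans ?_
    have := Set.ncard_insert_le b ({c} : Set V)
    rw [Set.ncard_singleton] at this
    omega
  rw [h.reg] at h1
  have := h.four
  omega

theorem Base.ball {M : ℕ} (h : Base d G M) (v : V) (r : ℕ) :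
    ∃ B : Finset V, B.card ≤ (d + 1) ^ r ∧ ∀ u, Near G r u v → u ∈ B := by
  classical
  induction r with
  | zero =>
    refine ⟨{v}, by simp, ?_⟩
    rintro u ⟨p, hp⟩
    simpa using p.eq_of_length_eq_zero (by omega)
  | succ r ih =>
    obtain ⟨B, hB, hmem⟩ := ih
    refine ⟨B ∪ B.biUnion (fun w => (h.fin w).toFinset), ?_, ?_⟩
    · refine (Finset.card_union_le _ _).trans ?_
      have : (B.biUnion (fun w => (h.fin w).toFinset)).card ≤ B.card * d := by
        refine Finset.card_biUnion_le_card_mul _ _ _ fun w _ => ?_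
        rw [← Set.ncard_eq_toFinset_card _ (h.fin w), h.reg]
      rw [pow_succ]; nlinarith
    · rintro u ⟨p, hp⟩
      cases p with
      | nil => exact Finset.mem_union_left _ (hmem _ (Near.refl _ _))
      | cons hadj q =>
        refine Finset.mem_union_right _ (Finset.mem_biUnion.2 ⟨_, hmem _ ⟨q, ?_⟩, ?_⟩)
        · simpa using hp
        · simpa using hadj.symm

/-- Two paths that differ only in their first vertex. -/
theorem Base.fork {M : ℕ} (h : Base d G M) (u c v : V) (huc : G.Adj u c) (hvc : G.Adj v c) (i : ℕ)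
    (hi : i + 1 < M) :
    ∃ p q : ℕ → V, IsP G (i + 1) p ∧ IsP G (i + 1) q ∧ p 0 = u ∧ q 0 = v ∧
      ∀ j, p (j + 1) = q (j + 1) := by
  classical
  have key : ∀ i, i + 1 < M → ∃ w : ℕ → V, IsP G i w ∧ w 0 = c ∧ ∀ j ≤ i, w j ≠ u ∧ w j ≠ v := by
    intro i
    induction i with
    | zero =>
      intro _
      refine ⟨fun _ => c, ⟨by simp, by simp⟩, rfl, fun _ _ => ⟨huc.ne', hvc.ne'⟩⟩
    | succ i ih =>
      intro hi
      obtain ⟨w, hw, h0, hne⟩ := ih (by omega)
      obtain ⟨z, hz, z1, z2, z3⟩ := h.exists_nbr (w i) u v (w (i - 1))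
      have hnew : ∀ j ≤ i, w j ≠ z := by
        intro j hj e
        rcases Nat.eq_or_lt_of_le hj with rfl | hlt
        · exact hz.ne e
        · let A : Finset V := (Finset.range i).image w
          have hA : ∀ l ≤ i - 1, w l ∈ A := fun l hl =>
            Finset.mem_image.2 ⟨l, Finset.mem_range.2 (by omega), rfl⟩
          have hcard : A.card < M := by
            have : A.card ≤ i := Finset.card_image_le.trans (by simp)
            omega
          have hnot : w i ∉ A := by
            intro hm
            obtain ⟨l, hl, e'⟩ := Finset.mem_image.1 hm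
            have := hw.2 l (by have := Finset.mem_range.1 hl; omega) i le_rfl e'
            have := Finset.mem_range.1 hl
            omega
          have hadj : G.Adj (w i) (w (i - 1)) := by
            have := (hw.1 (i - 1) (by omega)).symm
            rwa [show i - 1 + 1 = i by omega] at this
          have := h.cyc A hcard (w i) hnot (w j) (hA j (by omega)) (w (i - 1)) (hA _ le_rfl)
            (e ▸ hz) hadj ((hw.mono (Nat.sub_le i 1)).conn A hA j (i - 1) (by omega) le_rfl)
          exact z3 (e ▸ this)
      refine ⟨fun j => if j = i + 1 then z else w j, ⟨fun j hj => ?_, fun a ha b hb e => ?_⟩,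
        by simp [h0], fun j hj => ?_⟩
      · by_cases hji : j = i
        · subst hji; simpa using hz
        · simp only [if_neg (show j ≠ i + 1 by omega), if_neg (show j + 1 ≠ i + 1 by omega)]
          exact hw.1 j (by omega)
      · by_cases h1 : a = i + 1 <;> by_cases h2 : b = i + 1
        · omega
        · simp only [h1, if_pos, if_neg h2] at e
          exact absurd e.symm (hnew b (by omega))
        · simp only [h2, if_pos, if_neg h1] at e
          exact absurd e (hnew a (by omega))
        · simp only [if_neg h1, if_neg h2] at e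
          exact hw.2 a (by omega) b (by omega) e
      · by_cases h1 : j = i + 1
        · simp only [h1, if_pos]; exact ⟨z1, z2⟩
        · simp only [if_neg h1]; exact hne j (by omega)
  obtain ⟨w, hw, h0, hne⟩ := key i hi
  have build : ∀ s, G.Adj s c → (∀ j ≤ i, w j ≠ s) →
      IsP G (i + 1) (fun j => match j with | 0 => s | j + 1 => w j) := by
    intro s hs hn
    refine ⟨fun j hj => ?_, fun a ha b hb e => ?_⟩
    · cases j with
      | zero => simpa [h0] using hs
      | succ j => exact hw.1 j (by omega)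
    · cases a with
      | zero =>
        cases b with
        | zero => rfl
        | succ b => exact absurd e.symm (hn b (by omega))
      | succ a =>
        cases b with
        | zero => exact absurd e (hn a (by omega))
        | succ b => rw [hw.2 a (by omega) b (by omega) e]
  exact ⟨_, _, build u huc (fun j hj => (hne j hj).1), build v hvc (fun j hj => (hne j hj).2),
    rfl, rfl, fun _ => rfl⟩

theorem Base.exists_far {M : ℕ} (h : Base d G M) (r : ℕ) (B : Finset V)
    (hM : B.card * (d + 1) ^ r + 1 < M) : ∃ y, ∀ b ∈ B, ¬ Near G r y b := by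
  classical
  obtain ⟨c⟩ := h.ne
  obtain ⟨u, hu, -⟩ := h.exists_nbr c c c c
  obtain ⟨p, -, hp, -⟩ := h.fork u c u hu.symm hu.symm (B.card * (d + 1) ^ r) hM
  choose ball hball hmem using fun b => h.ball b r
  by_contra hc
  push Not at hc
  have hsub : (Finset.range (B.card * (d + 1) ^ r + 2)).image p ⊆ B.biUnion ball := by
    intro y _
    obtain ⟨b, hb, hn⟩ := hc y
    exact Finset.mem_biUnion.2 ⟨b, hb, hmem b y hn⟩
  have h1 := Finset.card_le_card hsub
  rw [Finset.card_image_of_injOn (fun a ha b hb e => hp.2 a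
    (by have := Finset.mem_range.1 (Finset.mem_coe.1 ha); omega) b
    (by have := Finset.mem_range.1 (Finset.mem_coe.1 hb); omega) e), Finset.card_range] at h1
  have h2 := Finset.card_biUnion_le_card_mul B ball ((d + 1) ^ r) (fun b _ => hball b)
  omega

/-- A free neighbour on one side gives a free neighbour on the other side. -/
theorem exists_free {r M : ℕ} {S : Finset (V × W)} (h : Good G H r S) (hG : Base d G M)
    (hH : Base d H M) {p : V × W} (hp : p ∈ S) {x : V} (hx : ∀ s ∈ S, s.1 ≠ x)
    (h1 : G.Adj x p.1) : ∃ y, H.Adj y p.2 ∧ ∀ s ∈ S, s.2 ≠ y := by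
  by_contra hc
  push Not at hc
  have : Nonempty (V × W) := ⟨p⟩
  choose! f hf hf' using hc
  have hmaps : ∀ y ∈ H.neighborSet p.2, (f y).1 ∈ G.neighborSet p.1 \ {x} := by
    intro y hy
    have hy' : H.Adj y p.2 := (H.mem_neighborSet _ _).1 hy |>.symm
    refine ⟨?_, hx _ (hf y hy')⟩
    rw [SimpleGraph.mem_neighborSet, h.adj p hp _ (hf y hy'), hf' y hy']
    exact hy'.symm
  have hinj : Set.InjOn (fun y => (f y).1) (H.neighborSet p.2) := by
    intro y hy z hz e
    have hy' : H.Adj y p.2 := (H.mem_neighborSet _ _).1 hy |>.symm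
    have hz' : H.Adj z p.2 := (H.mem_neighborSet _ _).1 hz |>.symm
    have := (h.inj _ (hf y hy') _ (hf z hz')).1 e
    rwa [hf' y hy', hf' z hz'] at this
  have h2 := Set.ncard_le_ncard_of_injOn _ hmaps hinj ((hG.fin p.1).subset Set.sdiff_subset)
  have h3 := Set.ncard_sdiff_singleton_add_one (show x ∈ G.neighborSet p.1 from h1.symm) (hG.fin _)
  rw [hH.reg] at h2
  rw [hG.reg] at h3
  omega

theorem extend_walk {M : ℕ} (hG : Base d G M) (hH : Base d H M) {a x : V} (w : G.Walk a x) :
    ∀ (r : ℕ) (S : Finset (V × W)) (b : W), Good G H (r + 1 + w.length) S → (a, b) ∈ S →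
      S.card + w.length < M →
      ∃ S', S ⊆ S' ∧ Good G H (r + 1) S' ∧ S'.card ≤ S.card + w.length ∧ ∃ y, (x, y) ∈ S' := by
  classical
  induction w with
  | nil => intro r S b h hab _; exact ⟨S, subset_rfl, h, by simp, b, hab⟩
  | cons hadj q ih =>
    rename_i a a₁ x
    intro r S b h hab hM
    simp only [SimpleGraph.Walk.length_cons] at h hM ⊢
    by_cases hin : ∃ s ∈ S, s.1 = a₁
    · obtain ⟨s, hs, e⟩ := hin
      obtain ⟨S', h1, h2, h3, h4⟩ := ih r S s.2 (h.mono (by omega)) (by rw [← e]; exact hs)
        (by omega)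
      exact ⟨S', h1, h2, by omega, h4⟩
    · push Not at hin
      obtain ⟨y, hy, hy'⟩ := exists_free h hG hH hab hin hadj.symm
      have h' : Good G H (r + q.length + 2) S := h.mono (by omega)
      have hg := h'.insert_adj hG.cyc hH.cyc (by omega) hab hin hy' hadj.symm hy
      have hc := Finset.card_insert_le (a₁, y) S
      obtain ⟨S', h1, h2, h3, h4⟩ := ih r (insert (a₁, y) S) y (hg.mono (by omega))
        (Finset.mem_insert_self _ _) (by omega)
      exact ⟨S', (Finset.subset_insert _ _).trans h1, h2, by omega, h4⟩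

theorem extend {M r : ℕ} (hG : Base d G M) (hH : Base d H M) {S : Finset (V × W)}
    (h : Good G H (2 * (r + 1)) S) (hM : S.card * (d + 1) ^ (r + 1) + S.card + r + 2 < M) (x : V) :
    ∃ S', S ⊆ S' ∧ Good G H (r + 1) S' ∧ S'.card ≤ S.card + (r + 1) ∧ ∃ y, (x, y) ∈ S' := by
  classical
  by_cases hn : ∃ s ∈ S, Near G (r + 1) x s.1
  · obtain ⟨s, hs, n⟩ := hn
    obtain ⟨w, hw⟩ := n.symm
    obtain ⟨S', h1, h2, h3, h4⟩ := extend_walk hG hH w r S s.2 (h.mono (by omega)) hs
      (by omega)
    exact ⟨S', h1, h2, by omega, h4⟩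
  · push Not at hn
    obtain ⟨y, hy⟩ := hH.exists_far (r + 1) (S.image Prod.snd) (by
      have : (S.image Prod.snd).card * (d + 1) ^ (r + 1) ≤ S.card * (d + 1) ^ (r + 1) :=
        Nat.mul_le_mul_right _ Finset.card_image_le
      omega)
    refine ⟨insert (x, y) S, Finset.subset_insert _ _, (h.mono (by omega)).insert_far hn
      (fun s hs => hy _ (Finset.mem_image_of_mem _ hs)), ?_, y, Finset.mem_insert_self _ _⟩
    have := Finset.card_insert_le (x, y) S
    omega

end Pool.Agent.Lib.MP_c527bb_lc.K
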