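import Mathlib
import Pool.Agent.Lib.MP_c527bb_lc.K.Base

/-!
Small edge cuts of a connected vertex-transitive graph of large girth have a small side.
-/

set_option autoImplicit false

open Finset

namespace Pool.Agent.Lib.MP_c527bb_lc.K

variable {V : Type} [Fintype V] [DecidableEq V] {G : SimpleGraph V} {d M : ℕ}

open Classical in
/-- The edges leaving a set. -/
noncomputable def bdS (G : SimpleGraph V) (X : Finset V) : Finset (V × V) :=
  univ.filter fun p => G.Adj p.1 p.2 ∧ p.1 ∈ X ∧ p.2 ∉ X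

theorem mem_bdS {X : Finset V} {p : V × V} :
    p ∈ bdS G X ↔ G.Adj p.1 p.2 ∧ p.1 ∈ X ∧ p.2 ∉ X := by simp [bdS]

theorem bd_compl (X : Finset V) : #(bdS G Xᶜ) = #(bdS G X) :=
  card_equiv (Equiv.prodComm V V) fun p => by
    simp only [mem_bdS, mem_compl, not_not, Equiv.prodComm_apply, Prod.fst_swap, Prod.snd_swap,
      G.adj_comm p.2]
    tauto

theorem bd_sub (A B : Finset V) : #(bdS G (A ∩ B)) + #(bdS G (A ∪ B)) ≤ #(bdS G A) + #(bdS G B) := by
  rw [← card_union_add_card_inter, ← card_union_add_card_inter (bdS G A)]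
  refine add_le_add (card_le_card fun p => ?_) (card_le_card fun p => ?_) <;>
    simp only [mem_union, mem_inter, mem_bdS] <;> tauto

theorem bd_map (φ : G ≃g G) (A : Finset V) :
    #(bdS G (A.map φ.toEquiv.toEmbedding)) = #(bdS G A) :=
  (card_equiv (φ.toEquiv.prodCongr φ.toEquiv) fun p => by
    have hm : ∀ a, φ a ∈ A.map φ.toEquiv.toEmbedding ↔ a ∈ A := fun a => mem_map' _
    rw [mem_bdS, mem_bdS, ← hm, ← hm, ← φ.map_adj_iff]
    rfl).symm

theorem bd_ge {A : Finset V} (h : ∀ a ∈ A, ∃ y, G.Adj a y ∧ y ∉ A) : #A ≤ #(bdS G A) := by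
  refine card_le_card_of_surjOn Prod.fst fun a ha => ?_
  obtain ⟨y, h1, h2⟩ := h a ha
  exact ⟨(a, y), mem_coe.2 (mem_bdS.2 ⟨h1, ha, h2⟩), rfl⟩

theorem bd_le (hG : Base d G M) {X B : Finset V} (h : ∀ x ∈ X, ∀ y ∉ X, G.Adj x y → y ∈ B) :
    #(bdS G X) ≤ #B * d := by
  refine le_trans (card_le_card fun p hp => ?_) (card_biUnion_le_card_mul B
    (fun b => (hG.fin b).toFinset.image fun a => (a, b)) d fun b _ => card_image_le.trans ?_)
  · obtain ⟨h1, h2, h3⟩ := mem_bdS.1 hp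
    exact mem_biUnion.2 ⟨p.2, h _ h2 _ h3 h1, mem_image.2 ⟨p.1, by simpa using h1.symm, rfl⟩⟩
  · rw [← Set.ncard_eq_toFinset_card _ (hG.fin b), hG.reg]

theorem bd_small (hG : Base d G M) (hW : WDeg G M) (X : Finset V) (hX : #X ≤ M) :
    #X ≤ #(bdS G X) := by
  induction' hc : #X with n ih generalizing X
  · omega
  obtain ⟨x, hx, hu⟩ := hW X hX (card_pos.1 (by omega))
  obtain ⟨n0, hn0⟩ : ∃ n0, ∀ n ∈ X, G.Adj x n → n = n0 := by
    by_cases h : ∃ n ∈ X, G.Adj x n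
    · obtain ⟨n0, a, b⟩ := h
      exact ⟨n0, fun n c e => hu n c n0 a e b⟩
    · exact ⟨x, fun n c e => absurd ⟨n, c, e⟩ h⟩
  obtain ⟨b1, h1, e1, -⟩ := hG.exists_nbr x n0 n0 n0
  obtain ⟨b2, h2, e2, e3, -⟩ := hG.exists_nbr x n0 b1 b1
  have hce := card_erase_of_mem hx
  have h3 := ih (X.erase x) (by omega) (by omega)
  have h4 : insert (x, b1) (insert (x, b2) (bdS G (X.erase x))) ⊆ insert (n0, x) (bdS G X) := by
    intro p hp
    simp only [mem_insert, mem_bdS, mem_erase, not_and] at hp ⊢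
    rcases hp with rfl | rfl | ⟨a, ⟨b, c⟩, e⟩
    · exact Or.inr ⟨h1, hx, fun m => e1 (hn0 _ m h1)⟩
    · exact Or.inr ⟨h2, hx, fun m => e2 (hn0 _ m h2)⟩
    · by_cases f : p.2 = x
      · exact Or.inl (Prod.ext (hn0 _ c (f ▸ a.symm)) f)
      · exact Or.inr ⟨a, c, e f⟩
  have h5 := card_le_card h4
  rw [card_insert_of_notMem (by simp [mem_bdS, e3.symm]),
    card_insert_of_notMem (by simp [mem_bdS])] at h5
  have := card_insert_le (n0, x) (bdS G X)
  omega

theorem rob (hG : Base d G M) (hW : WDeg G M) (htr : ∀ a b, ∃ φ : G ≃g G, φ a = b)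
    (hc : G.Preconnected) {K : ℕ} (hK : 4 * K ≤ M) (X : Finset V) (hX : #(bdS G X) ≤ K) :
    #X ≤ K ∨ #Xᶜ ≤ K := by
  by_contra hne
  push Not at hne
  have big : ∀ Y : Finset V, #(bdS G Y) < #Y → M < #Y := fun Y h => by
    by_contra f
    have := bd_small hG hW Y (by omega)
    omega
  have hex : ∃ l, ∃ A : Finset V, (M < #A ∧ M < #Aᶜ) ∧ #(bdS G A) = l :=
    ⟨_, X, ⟨big X (by omega), big _ (by rw [bd_compl]; omega)⟩, rfl⟩
  classical
  have hmin : ∀ A : Finset V, M < #A → M < #Aᶜ → Nat.find hex ≤ #(bdS G A) :=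
    fun A a b => Nat.find_min' hex ⟨A, ⟨a, b⟩, rfl⟩
  have hl : Nat.find hex ≤ K :=
    (hmin X (big X (by omega)) (big _ (by rw [bd_compl]; omega))).trans hX
  have hs := Nat.find_spec hex
  generalize Nat.find hex = l at hmin hl hs
  have hex2 : ∃ s, ∃ A : Finset V, ((M < #A ∧ M < #Aᶜ) ∧ #(bdS G A) = l) ∧ #A = s :=
    let ⟨A, h⟩ := hs; ⟨_, A, h, rfl⟩
  obtain ⟨A, ⟨⟨a1, a2⟩, a3⟩, a4⟩ := Nat.find_spec hex2
  have hmin2 : ∀ B : Finset V, M < #B → M < #Bᶜ → #(bdS G B) ≤ l → #A ≤ #B := fun B a b c =>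
    a4 ▸ Nat.find_min' hex2 ⟨B, ⟨⟨a, b⟩, le_antisymm c (hmin B a b)⟩, rfl⟩
  have a5 : #A ≤ #Aᶜ := hmin2 _ a2 (by rwa [compl_compl]) (by rw [bd_compl, a3])
  have key : ∀ B : Finset V, #B = #A → #(bdS G B) = l → (A ∩ B).Nonempty → A = B := by
    intro B b1 b2 b3
    have c1 := card_add_card_compl A
    have c2 := card_add_card_compl B
    have c3 := card_add_card_compl (A ∩ B)
    have c4 := card_add_card_compl (A ∪ B)
    have c5 := card_union_add_card_inter A B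
    have c6 : #(A ∩ B) ≤ #A := card_le_card inter_subset_left
    have s1 := bd_sub (G := G) A B
    by_cases h : 2 * K < #(A ∩ B)
    · have d1 := big (A ∩ B) (by omega)
      have d2 := hmin (A ∪ B) (by omega) (by omega)
      have d3 := hmin2 (A ∩ B) d1 (by omega) (by omega)
      have d4 : A ∩ B = A := eq_of_subset_of_card_le inter_subset_left d3
      exact eq_of_subset_of_card_le (d4 ▸ inter_subset_right) b1.le
    · exfalso
      have s2 := bd_sub (G := G) A Bᶜ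
      rw [bd_compl, ← bd_compl (A ∪ Bᶜ)] at s2
      have c7 : #(A ∩ Bᶜ) + #(A ∩ B) = #A := by
        rw [← sdiff_eq_inter_compl, card_sdiff_add_card_inter]
      have c8 := card_add_card_compl (A ∩ Bᶜ)
      have c9 := card_add_card_compl (A ∪ Bᶜ)
      have c10 := card_union_add_card_inter A Bᶜ
      have d1 := big (A ∩ Bᶜ) (by omega)
      have d2 := hmin (A ∪ Bᶜ)ᶜ (by omega) (by rw [compl_compl]; omega)
      have d3 := hmin2 (A ∩ Bᶜ) d1 (by omega) (by omega)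
      have := card_pos.2 b3
      omega
  obtain ⟨a0, ha0⟩ := card_pos.1 (show 0 < #A by omega)
  obtain ⟨b0, hb0⟩ := card_pos.1 (show 0 < #Aᶜ by omega)
  obtain ⟨p, -, hp1, hp2⟩ := (hc a0 b0).some.exists_boundary_dart (A : Set V) ha0
    (by simpa using hb0)
  have := bd_ge (G := G) (A := A) fun a ha => by
    obtain ⟨φ, hφ⟩ := htr p.fst a
    have e := key (A.map φ.toEquiv.toEmbedding) (card_map _) (by rw [bd_map, a3])
      ⟨a, mem_inter.2 ⟨ha, mem_map.2 ⟨p.fst, hp1, hφ⟩⟩⟩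
    refine ⟨φ p.snd, hφ ▸ φ.map_adj_iff.2 p.adj, fun m => hp2 ?_⟩
    rw [e] at m
    exact (mem_map' _).1 m
  omega

end Pool.Agent.Lib.MP_c527bb_lc.K
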