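import Mathlib
import Pool.Agent.Lib.MP_c527bb_lc.K.Atom

/-!
Graphs given by a symmetric family of bijections, and Cayley graphs of large girth.
-/

set_option autoImplicit false

namespace Pool.Agent.Lib.MP_c527bb_lc.K

/-- Letters. -/
abbrev Let (m : ℕ) := Fin m × Bool

/-- The inverse letter. -/
def iv {m : ℕ} (i : Let m) : Let m := (i.1, !i.2)

theorem iv_iv {m : ℕ} (i : Let m) : iv (iv i) = i := by simp [iv]

theorem iv_ne {m : ℕ} (i : Let m) : i ≠ iv i := fun e => by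
  have := congrArg Prod.snd e
  simp [iv] at this

variable {U : Type} {m : ℕ}

/-- Reduced walks, with their last letter and length. -/
inductive RW (s : Let m → U → U) (x : U) : Let m → ℕ → U → Prop
  | one (i : Let m) : RW s x i 1 (s i x)
  | step {i j : Let m} {n : ℕ} {y : U} : RW s x i n y → j ≠ iv i → RW s x j (n + 1) (s j y)

/-- A symmetric family of bijections without short reduced closed walk. -/
structure Sch (s : Let m → U → U) (M : ℕ) : Prop where
  inv : ∀ i x, s (iv i) (s i x) = x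
  free : ∀ x i n y, RW s x i n y → n ≤ M → y ≠ x

/-- The graph of the family. -/
def gr (s : Let m → U → U) : SimpleGraph U := SimpleGraph.fromRel fun x y => ∃ i, y = s i x

variable {s : Let m → U → U} {M : ℕ}

theorem Sch.mono (h : Sch s M) {M' : ℕ} (hM : M' ≤ M) : Sch s M' :=
  ⟨h.inv, fun x i n y a b => h.free x i n y a (b.trans hM)⟩

theorem Sch.adj (h : Sch s M) (hM : 1 ≤ M) {x y : U} : (gr s).Adj x y ↔ ∃ i, y = s i x := by
  rw [gr, SimpleGraph.fromRel_adj]
  constructor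
  · rintro ⟨-, e | ⟨i, e⟩⟩
    · exact e
    · exact ⟨iv i, by rw [e, h.inv]⟩
  · rintro ⟨i, rfl⟩
    exact ⟨(h.free x i 1 _ (.one i) hM).symm, Or.inl ⟨i, rfl⟩⟩

theorem Sch.reg (h : Sch s M) (hM : 2 ≤ M) (x : U) : ((gr s).neighborSet x).ncard = 2 * m := by
  have : (gr s).neighborSet x = Set.range fun i => s i x := by
    ext y
    rw [SimpleGraph.mem_neighborSet, h.adj (by omega)]
    exact ⟨fun ⟨i, e⟩ => ⟨i, e.symm⟩, fun ⟨i, e⟩ => ⟨i, e.symm⟩⟩
  rw [this, Set.ncard_range_of_injective fun i j e => ?_]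
  · simp [mul_comm]
  · by_contra hne
    refine h.free x (iv j) 2 _ (.step (.one i) fun f => hne ?_) hM ?_
    · rw [← iv_iv i, ← f, iv_iv]
    · have e' : s i x = s j x := e
      rw [e', h.inv]

theorem Sch.nbw (h : Sch s M) (hM : 1 ≤ M) : NBW (gr s) M := by
  intro p n h1 hn hadj hnb
  have key : ∀ j, j + 1 ≤ n → ∃ i, RW s (p 0) i (j + 1) (p (j + 1)) ∧ p (j + 1) = s i (p j) := by
    intro j
    induction j with
    | zero =>
      intro hj
      obtain ⟨i, e⟩ := (h.adj hM).1 (hadj 0 hj)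
      exact ⟨i, e ▸ .one i, e⟩
    | succ j ih =>
      intro hj
      obtain ⟨i, a, b⟩ := ih (by omega)
      obtain ⟨l, e⟩ := (h.adj hM).1 (hadj (j + 1) hj)
      refine ⟨l, e ▸ .step a fun f => hnb j hj ?_, e⟩
      rw [e, b, f, h.inv]
  obtain ⟨j, rfl⟩ : ∃ j, n = j + 1 := ⟨n - 1, by omega⟩
  obtain ⟨i, a, -⟩ := key j le_rfl
  exact h.free _ _ _ _ a hn

theorem Sch.base [Nonempty U] (h : Sch s M) (hM : 2 ≤ M) (hm : 2 ≤ m) : Base (2 * m) (gr s) M :=
  ⟨inferInstance, by omega, h.reg hM, (h.nbw (by omega)).deg.wdeg.noCyc⟩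

theorem RW.proj {U' : Type} {s' : Let m → U' → U'} (f : U' → U) (hf : ∀ i x, f (s' i x) = s i (f x))
    {x y : U'} {i : Let m} {n : ℕ} (h : RW s' x i n y) : RW s (f x) i n (f y) := by
  induction h with
  | one i => exact hf i x ▸ .one i
  | step _ b ih => exact hf _ _ ▸ .step ih b

theorem rw_iter (x : U) (i : Let m) (n : ℕ) : RW s x i (n + 1) ((s i)^[n + 1] x) := by
  induction n with
  | zero => exact .one i
  | succ n ih => rw [Function.iterate_succ_apply']; exact .step ih (iv_ne i)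

/-- The double cover. -/
def dc (s : Let m → U → U) (i : Let m) (p : U × Bool) : U × Bool := (s i p.1, !p.2)

theorem Sch.dc (h : Sch s M) : Sch (dc s) M :=
  ⟨fun i x => by simp [K.dc, h.inv], fun x i n y a b e =>
    h.free _ _ _ _ (a.proj Prod.fst fun _ _ => rfl) b (congrArg Prod.fst e)⟩

/-- The sign of a letter. -/
def sg (b : Bool) : ℤ := if b then 1 else -1

/-- The transvections. -/
def tv {R : Type} [CommRing R] (i : Let m) (v : R × R) : R × R :=
  (v.1 + 4 * sg i.2 * (v.2 - (i.1 : ℕ) * v.1),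
    v.2 + 4 * sg i.2 * (v.2 - (i.1 : ℕ) * v.1) * (i.1 : ℕ))

theorem tv_iv {R : Type} [CommRing R] (i : Let m) (v : R × R) : tv (iv i) (tv i v) = v := by
  obtain ⟨i, b⟩ := i
  cases b <;> simp only [tv, iv, sg] <;> ext <;> simp <;> ring

/-- The ping-pong regions. -/
def Reg (i : Let m) (v : ℤ × ℤ) : Prop :=
  2 * |v.2 - (i.1 : ℕ) * v.1| < |v.1| ∧ 0 < sg i.2 * (v.2 - (i.1 : ℕ) * v.1) * v.1

theorem pp_aux {x L e : ℤ} (he : e = 1 ∨ e = -1) (h : |x| < 2 * |L| ∨
    (2 * |L| < |x| ∧ 0 < e * L * x)) : 2 * |L| < |x + 4 * e * L| ∧ 0 < e * L * (x + 4 * e * L) ∧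
      |x| < |x + 4 * e * L| ∧ |x + 4 * e * L| ≤ |x| + 4 * |L| := by
  rcases he with rfl | rfl <;> rcases h with h | ⟨h, h'⟩ <;>
    rcases abs_cases x with a | a <;> rcases abs_cases L with b | b <;>
    refine ⟨?_, ?_, ?_, ?_⟩ <;>
    first
      | nlinarith
      | (rw [lt_abs]; first | (left; nlinarith) | (right; nlinarith))
      | (rw [abs_le]; constructor <;> nlinarith)

theorem pingpong (i j : Let m) (hij : j ≠ iv i) (v : ℤ × ℤ) (hv : Reg i v) :
    Reg j (tv j v) ∧ |v.1| < |(tv j v).1| ∧ |(tv j v).1| ≤ (4 * m + 3) * |v.1| := by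
  obtain ⟨x, y⟩ := v
  obtain ⟨h1, h2⟩ := hv
  simp only at h1 h2
  have e : (tv j (x, y)).2 - (j.1 : ℕ) * (tv j (x, y)).1 = y - (j.1 : ℕ) * x := by
    simp only [tv, Int.cast_id]; ring
  have e1 : (tv j (x, y)).1 = x + 4 * sg j.2 * (y - (j.1 : ℕ) * x) := by simp only [tv, Int.cast_id]
  have e2 : y - (j.1 : ℕ) * x = (y - (i.1 : ℕ) * x) + (((i.1 : ℕ) : ℤ) - (j.1 : ℕ)) * x := by ring
  have b1 : |(((i.1 : ℕ) : ℤ) - (j.1 : ℕ))| ≤ m := by
    have := i.1.2
    have := j.1.2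
    rw [abs_le]; constructor <;> omega
  have b2 : |y - (j.1 : ℕ) * x| ≤ |y - (i.1 : ℕ) * x| + m * |x| := by
    rw [e2]
    refine (abs_add_le _ _).trans ?_
    rw [abs_mul]
    gcongr
  have := pp_aux (x := x) (L := y - (j.1 : ℕ) * x) (e := sg j.2) (by unfold sg; split_ifs <;> simp)
    (by
      by_cases f : i.1 = j.1
      · have : i = j := Prod.ext f (by
          by_contra g
          exact hij (Prod.ext f.symm (by simp only [iv]; revert g; cases i.2 <;> cases j.2 <;> simp)))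
        exact Or.inr (this ▸ ⟨h1, h2⟩)
      · left
        have b3 : 1 ≤ |(((i.1 : ℕ) : ℤ) - (j.1 : ℕ))| :=
          Int.one_le_abs fun g => f (Fin.ext (by omega))
        have b4 := abs_sub_abs_le_abs_sub ((((i.1 : ℕ) : ℤ) - (j.1 : ℕ)) * x)
          (-(y - (i.1 : ℕ) * x))
        rw [abs_neg, sub_neg_eq_add, add_comm, ← e2, abs_mul] at b4
        nlinarith [abs_nonneg x])
  rw [Reg, e, e1]
  refine ⟨⟨this.1, this.2.1⟩, this.2.2.1, this.2.2.2.trans ?_⟩
  nlinarith

end Pool.Agent.Lib.MP_c527bb_lc.K
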