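import Mathlib
import Pool.Agent.Lib.MP_c527bb_lc.K.Sch

/-!
Cayley graphs of the groups generated by transvections modulo an odd number.
-/

set_option autoImplicit false

open Finset

namespace Pool.Agent.Lib.MP_c527bb_lc.K

variable {m : ℕ}

/-- Reduction modulo `N`. -/
def red (N : ℕ) (v : ℤ × ℤ) : ZMod N × ZMod N := ((v.1 : ZMod N), (v.2 : ZMod N))

theorem red_tv (N : ℕ) (i : Let m) (v : ℤ × ℤ) : red N (tv i v) = tv i (red N v) := by
  simp [red, tv]

/-- The transvections as permutations. -/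
def sp (N : ℕ) (i : Let m) : Equiv.Perm (ZMod N × ZMod N) where
  toFun := tv i
  invFun := tv (iv i)
  left_inv := tv_iv i
  right_inv v := by
    have := tv_iv (iv i) v
    rwa [iv_iv] at this

theorem sp_iv (N : ℕ) (i : Let m) : sp N (iv i) * sp N i = 1 := Equiv.ext fun v => tv_iv i v

/-- The group generated by the transvections. -/
def Gam (m N : ℕ) : Subgroup (Equiv.Perm (ZMod N × ZMod N)) :=
  Subgroup.closure (Set.range (sp (m := m) N))

/-- The generators. -/
def gen (N : ℕ) (i : Let m) : Gam m N := ⟨sp N i, Subgroup.subset_closure ⟨i, rfl⟩⟩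

/-- Left multiplication by the generators. -/
def cs (N : ℕ) (i : Let m) (g : Gam m N) : Gam m N := gen N i * g

theorem cs_rw {N : ℕ} {g h : Gam m N} {i : Let m} {n : ℕ} (a : RW (cs N) g i n h) :
    ∃ v0 v : ℤ × ℤ, |v0.1| = 3 ∧ Reg i v ∧ 3 < |v.1| ∧ |v.1| ≤ 3 * (4 * m + 3) ^ n ∧
      h.1 (g.1⁻¹ (red N v0)) = red N v := by
  induction a with
  | one i =>
    have h0 : Reg i (3, 3 * (i.1 : ℕ) + sg i.2) := by
      have e : (3 * ((i.1 : ℕ) : ℤ) + sg i.2) - (i.1 : ℕ) * 3 = sg i.2 := by ring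
      simp only [Reg, e]
      cases i.2 <;> simp [sg]
    obtain ⟨a, b, c⟩ := pingpong i i (iv_ne i) _ h0
    refine ⟨(3, 3 * (i.1 : ℕ) + sg i.2), _, rfl, a, b, ?_, ?_⟩
    · rw [pow_one]; exact c.trans_eq (mul_comm _ _)
    · rw [red_tv]
      simp [cs, gen, sp]
  | step _ hj ih =>
    obtain ⟨v0, v, h0, a, b, c, e⟩ := ih
    obtain ⟨a', b', c'⟩ := pingpong _ _ hj v a
    refine ⟨v0, _, h0, a', b.trans b', c'.trans ?_, ?_⟩
    · rw [pow_succ, ← mul_assoc, mul_comm]; gcongr
    · rw [red_tv, ← e]; rfl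

theorem cs_sch {N M : ℕ} (hN : 3 * (4 * m + 3) ^ M + 3 < N) : Sch (cs (m := m) N) M := by
  refine ⟨fun i x => ?_, fun x i n y a hn e => ?_⟩
  · have : gen N (iv i) * gen N i = 1 := Subtype.ext (sp_iv N i)
    rw [cs, cs, ← mul_assoc, this, one_mul]
  · obtain ⟨v0, v, h0, -, b, c, f⟩ := cs_rw a
    rw [e, ← Equiv.Perm.mul_apply, mul_inv_cancel, Equiv.Perm.one_apply] at f
    have h1 := (ZMod.intCast_eq_intCast_iff_dvd_sub _ _ _).1 (congrArg Prod.fst f)
    have h2 : (4 * (m : ℤ) + 3) ^ n ≤ (4 * m + 3) ^ M := pow_le_pow_right₀ (by omega) hn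
    have h3 : 3 * (4 * (m : ℤ) + 3) ^ M + 3 < N := by exact_mod_cast hN
    have h4 := Int.eq_zero_of_abs_lt_dvd h1 (by
      have := abs_sub v.1 v0.1
      omega)
    rw [show v.1 = v0.1 by omega] at b
    omega

theorem cs_iter (N : ℕ) (i : Let m) (g : Gam m N) : (cs N i)^[N] g = g := by
  have h : ∀ (j : ℕ) (v : ZMod N × ZMod N), (sp N i ^ j) v =
      (v.1 + j * (4 * sg i.2 * (v.2 - (i.1 : ℕ) * v.1)),
        v.2 + j * (4 * sg i.2 * (v.2 - (i.1 : ℕ) * v.1) * (i.1 : ℕ))) := by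
    intro j
    induction j with
    | zero => intro v; simp
    | succ j ih =>
      intro v
      rw [pow_succ', Equiv.Perm.mul_apply, ih]
      show (_, _) = _
      ext <;> push_cast <;> ring
  have h1 : gen N i ^ N = 1 := by
    apply Subtype.ext
    ext1 v
    have : ((gen N i ^ N : Gam m N) : Equiv.Perm _) = sp N i ^ N := rfl
    rw [this, h]
    simp
  have h2 := congrFun (mul_left_iterate (gen N i) N) g
  rw [h1, one_mul] at h2
  exact h2

theorem cs_ind {N : ℕ} (P : Gam m N → Prop) (h1 : P 1) (h : ∀ i g, P g → P (cs N i g))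
    (g : Gam m N) : P g := by
  obtain ⟨g, hg⟩ := g
  induction hg using Subgroup.closure_induction_left with
  | one => exact h1
  | mul_left x hx y hy ih =>
    obtain ⟨i, rfl⟩ := hx
    exact h i ⟨y, hy⟩ ih
  | inv_mul_cancel x hx y hy ih =>
    obtain ⟨i, rfl⟩ := hx
    have e : (sp N i)⁻¹ = sp N (iv i) := (eq_inv_of_mul_eq_one_left (sp_iv N i)).symm
    simp only [e]
    exact h (iv i) ⟨y, hy⟩ ih

theorem dc_iter {U : Type} (s : Let m → U → U) (i : Let m) (n : ℕ) (p : U × Bool) :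
    (dc s i)^[2 * n + 1] p = ((s i)^[2 * n + 1] p.1, !p.2) := by
  induction n with
  | zero => rfl
  | succ n ih =>
    rw [show 2 * (n + 1) + 1 = 2 * n + 1 + 1 + 1 by ring]
    simp only [Function.iterate_succ_apply' (n := 2 * n + 1 + 1),
      Function.iterate_succ_apply' (n := 2 * n + 1), ih]
    simp [dc]

theorem Sch.reach {U : Type} {s : Let m → U → U} {M : ℕ} (h : Sch s M) (hM : 1 ≤ M) (i : Let m)
    (n : ℕ) (x : U) : (gr s).Reachable x ((s i)^[n] x) := by
  induction n with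
  | zero => rfl
  | succ n ih =>
    rw [Function.iterate_succ_apply']
    exact ih.trans ((h.adj hM).2 ⟨i, rfl⟩).reachable

/-- A bijection commuting with the letters is an automorphism. -/
def grIso {U : Type} (s : Let m → U → U) (e : U ≃ U) (h : ∀ i x, e (s i x) = s i (e x)) :
    gr s ≃g gr s where
  toEquiv := e
  map_rel_iff' := by
    intro a b
    simp only [gr, SimpleGraph.fromRel_adj, ← h, e.apply_eq_iff_eq, ne_eq]

theorem exists_nice (hm : 2 ≤ m) (M : ℕ) (hM : 2 ≤ M) :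
    ∃ (U : Type) (_ : Fintype U) (_ : DecidableEq U) (_ : Nonempty U) (s : Let m → U → U),
      Sch s M ∧ ∀ K, 4 * K ≤ M → ∀ X : Finset (U × Bool), #(bdS (gr (dc s)) X) ≤ K →
        #X ≤ K ∨ #Xᶜ ≤ K := by
  classical
  obtain ⟨n, hn⟩ : ∃ n, n = 3 * (4 * m + 3) ^ M + 3 := ⟨_, rfl⟩
  have hs : Sch (cs (m := m) (2 * n + 1)) M := cs_sch (by omega)
  have := Fintype.ofFinite (Gam m (2 * n + 1))
  refine ⟨Gam m (2 * n + 1), inferInstance, inferInstance, ⟨1⟩, cs _, hs, fun K hK X hX =>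
    rob (hs.dc.base hM hm) (hs.dc.nbw (by omega)).deg.wdeg (fun a b => ?_) ?_ hK X hX⟩
  · refine ⟨grIso _ ((Equiv.mulRight (a.1⁻¹ * b.1)).prodCongr
      ⟨fun c => xor c (xor a.2 b.2), fun c => xor c (xor a.2 b.2), fun c => by simp,
        fun c => by simp⟩) fun i x => ?_, ?_⟩
    · simp [dc, cs, mul_assoc]
    · obtain ⟨a, c⟩ := a
      obtain ⟨b, c'⟩ := b
      show (a * (a⁻¹ * b), xor c (xor c c')) = _
      simp
  · have flip : ∀ p, (gr (dc (cs (m := m) (2 * n + 1)))).Reachable p (p.1, !p.2) := fun p => by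
      have := hs.dc.reach (by omega) (⟨0, by omega⟩, true) (2 * n + 1) p
      rwa [dc_iter, cs_iter] at this
    have h : ∀ g c, (gr (dc (cs (m := m) (2 * n + 1)))).Reachable (1, true) (g, c) := by
      intro g
      induction g using cs_ind with
      | h1 =>
        intro c
        cases c
        · exact flip (1, true)
        · rfl
      | h i g ih =>
        intro c
        refine (ih (!c)).trans ((hs.dc.adj (by omega)).2 ⟨i, ?_⟩).reachable
        simp [dc]
    exact fun a b => (h a.1 a.2).symm.trans (h b.1 b.2)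

end Pool.Agent.Lib.MP_c527bb_lc.K
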