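import Mathlib

/-!
Monadic transitive-closure logic with `k` parameters on graphs, and `m`-connectivity.
-/

set_option autoImplicit false

namespace Pool.Agent.Lib.MP_c527bb_lc.K

/-- Formulas of `TC^1_k` whose free variables are among `n` variables. The argument of the
transitive-closure operator has the two variables `x, y` and `k` parameters available; the
parameters are the variables `z 0, ..., z (k - 1)` (repetitions allowed). -/
inductive Fml (k : ℕ) : ℕ → Type
  | adj {n : ℕ} (i j : Fin n) : Fml k n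
  | eq {n : ℕ} (i j : Fin n) : Fml k n
  | neg {n : ℕ} (φ : Fml k n) : Fml k n
  | conj {n : ℕ} (φ ψ : Fml k n) : Fml k n
  | ex {n : ℕ} (φ : Fml k (n + 1)) : Fml k n
  | tc {n : ℕ} (φ : Fml k (k + 1 + 1)) (z : Fin k → Fin n) (s t : Fin n) : Fml k n

/-- Satisfaction in a graph under an assignment of the variables. -/
def Sat {V : Type} (G : SimpleGraph V) {k : ℕ} : {n : ℕ} → Fml k n → (Fin n → V) → Prop
  | _, .adj i j, v => G.Adj (v i) (v j)
  | _, .eq i j, v => v i = v j
  | _, .neg φ, v => ¬ Sat G φ v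
  | _, .conj φ ψ, v => Sat G φ v ∧ Sat G ψ v
  | _, .ex φ, v => ∃ x : V, Sat G φ (Fin.cons x v)
  | _, .tc φ z s t, v =>
      Relation.TransGen (fun a b => Sat G φ (Fin.cons a (Fin.cons b fun i => v (z i)))) (v s) (v t)

/-- For every set `Z` of fewer than `m` vertices, any two other vertices are joined by a path
in `G - Z`. -/
def Conn {V : Type} (G : SimpleGraph V) (m : ℕ) : Prop :=
  ∀ Z : Finset V, Z.card < m → ∀ (x y : V) (hx : x ∉ Z) (hy : y ∉ Z),
    (G.induce {u | u ∉ Z}).Reachable ⟨x, hx⟩ ⟨y, hy⟩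

end Pool.Agent.Lib.MP_c527bb_lc.K
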