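import Mathlib
import Pool.Agent.Lib.MP_c527bb_lc.K.Defs
import Pool.Agent.Lib.MP_c527bb_lc.K.Base

/-!
The collapse of the transitive-closure operator with parameters.
-/

set_option autoImplicit false

open Relation

namespace Pool.Agent.Lib.MP_c527bb_lc.K

variable {V W : Type} {G : SimpleGraph V} {H : SimpleGraph W} {d k : ℕ}

/-- Far from all points of `Z`. -/
def Far (G : SimpleGraph V) (ρ : ℕ) (Z : Finset V) (u : V) : Prop := ∀ z ∈ Z, ¬ Near G ρ u z

/-- Two steps through vertices far from `Z`. -/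
def TwoF (G : SimpleGraph V) (ρ : ℕ) (Z : Finset V) (a b : V) : Prop :=
  Far G ρ Z a ∧ Far G ρ Z b ∧ ∃ c, Far G ρ Z c ∧ G.Adj a c ∧ G.Adj c b

/-- The class of graphs on which the logic with `k` parameters collapses. -/
structure Cls (d k : ℕ) (G : SimpleGraph V) (M : ℕ) : Prop extends Base d G M where
  even : ∀ ρ ≤ M, ∀ Z : Finset V, Z.card ≤ k → ∀ u v, Far G ρ Z u → Far G ρ Z v →
    ReflTransGen (TwoF G ρ Z) u v

theorem Cls.mono {M M' : ℕ} (h : Cls d k G M) (hM : M' ≤ M) : Cls d k G M' :=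
  ⟨h.toBase.mono hM, fun ρ hρ => h.even ρ (hρ.trans hM)⟩

theorem good_union [DecidableEq (V × W)] {r : ℕ} {S T : Finset (V × W)}
    (hS : Good G H (r + 1) S) (hT : Good G H (r + 1) T)
    (h : ∀ s ∈ S, ∀ t ∈ T, ¬ Near G (r + 1) s.1 t.1 ∧ ¬ Near H (r + 1) s.2 t.2) :
    Good G H (r + 1) (S ∪ T) := by
  have hi : ∀ s ∈ S, ∀ t ∈ T, (s.1 = t.1 ↔ s.2 = t.2) := fun s hs t ht =>
    ⟨fun e => absurd (e ▸ Near.refl _ _) (h s hs t ht).1,
      fun e => absurd (e ▸ Near.refl _ _) (h s hs t ht).2⟩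
  have ha : ∀ s ∈ S, ∀ t ∈ T, (G.Adj s.1 t.1 ↔ H.Adj s.2 t.2) := fun s hs t ht =>
    ⟨fun e => absurd ((Near.adj e).mono (by omega)) (h s hs t ht).1,
      fun e => absurd ((Near.adj e).mono (by omega)) (h s hs t ht).2⟩
  refine ⟨fun p hp q hq => ?_, fun p hp q hq => ?_, fun p hp q hq => ?_⟩ <;>
    rcases Finset.mem_union.1 hp with hp | hp <;> rcases Finset.mem_union.1 hq with hq | hq
  · exact hS.inj p hp q hq
  · exact hi p hp q hq
  · rw [eq_comm, eq_comm (a := p.2)]; exact hi q hq p hp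
  · exact hT.inj p hp q hq
  · exact hS.adj p hp q hq
  · exact ha p hp q hq
  · rw [G.adj_comm, H.adj_comm]; exact ha q hq p hp
  · exact hT.adj p hp q hq
  · exact (hS.sep p hp q hq).imp_left fun c => rtg_mono (fun a b hab =>
      ⟨Finset.mem_union_left _ hab.1, Finset.mem_union_left _ hab.2.1, hab.2.2⟩) c
  · exact Or.inr (h p hp q hq)
  · exact Or.inr ⟨fun n => (h q hq p hp).1 n.symm, fun n => (h q hq p hp).2 n.symm⟩
  · exact (hT.sep p hp q hq).imp_left fun c => rtg_mono (fun a b hab =>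
      ⟨Finset.mem_union_right _ hab.1, Finset.mem_union_right _ hab.2.1, hab.2.2⟩) c

theorem rtg_symm {A : Finset V} {a b : V}
    (h : ReflTransGen (fun s t => s ∈ A ∧ t ∈ A ∧ G.Adj s t) a b) :
    ReflTransGen (fun s t => s ∈ A ∧ t ∈ A ∧ G.Adj s t) b a := by
  induction h with
  | refl => exact .refl
  | tail _ h ih => exact ReflTransGen.head ⟨h.2.1, h.1, h.2.2.symm⟩ ih

theorem isP_near {i : ℕ} {p : ℕ → V} (h : IsP G i p) : ∀ j ≤ i, Near G j (p j) (p 0) := by
  intro j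
  induction j with
  | zero => exact fun _ => Near.refl _ _
  | succ j ih => exact fun hj => Near.cons (h.1 j hj).symm (ih (by omega))

/-- A bounded set around `Z` whose components are far apart. -/
theorem diag_many (k : ℕ) : ∀ r : ℕ, ∃ C : ℕ, ∀ (V : Type) (G : SimpleGraph V) (Z : Finset V),
    Z.card ≤ k → ∃ A : Finset V, Z ⊆ A ∧ A.card ≤ C ∧ (∀ a ∈ A, ∃ z ∈ Z, Near G C a z) ∧
      ∀ p ∈ A, ∀ q ∈ A, ReflTransGen (fun s t => s ∈ A ∧ t ∈ A ∧ G.Adj s t) p q ∨
        ¬ Near G r p q := by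
  classical
  induction k with
  | zero =>
    intro r
    refine ⟨0, fun V G Z hZ => ⟨∅, ?_, by simp, by simp, by simp⟩⟩
    rw [Finset.card_eq_zero.1 (Nat.le_zero.1 hZ)]
  | succ k ih =>
    intro r
    obtain ⟨C, hC⟩ := ih (r + r)
    refine ⟨C + r + 1, fun V G Z hZ => ?_⟩
    rcases Z.eq_empty_or_nonempty with rfl | ⟨x, hx⟩
    · exact ⟨∅, by simp, by simp, by simp, by simp⟩
    obtain ⟨A, h1, h2, h3, h4⟩ := hC V G (Z.erase x) (by rw [Finset.card_erase_of_mem hx]; omega)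
    have hex : ∃ i ≤ r, ∃ p : ℕ → V, IsP G i p ∧ p 0 = x ∧
        (p i ∈ A ∨ (i = 0 ∧ ∀ a ∈ A, ¬ Near G r x a)) := by
      by_cases hn : ∃ a ∈ A, Near G r x a
      · obtain ⟨a, ha, n⟩ := hn
        obtain ⟨i, hi, p, hp, e0, e1⟩ := n.exists_path
        exact ⟨i, hi, p, hp, e0, Or.inl (e1 ▸ ha)⟩
      · push Not at hn
        exact ⟨0, by omega, fun _ => x, ⟨by simp, by simp⟩, rfl, Or.inr ⟨rfl, hn⟩⟩
    obtain ⟨i, hi, p, hp, e0, hA⟩ := hex
    have hm : ∀ j ≤ i, p j ∈ A ∪ (Finset.range (i + 1)).image p := fun j hj =>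
      Finset.mem_union_right _ (Finset.mem_image.2 ⟨j, Finset.mem_range.2 (by omega), rfl⟩)
    have hup : ∀ {a b}, ReflTransGen (fun s t => s ∈ A ∧ t ∈ A ∧ G.Adj s t) a b →
        ReflTransGen (fun s t => s ∈ A ∪ (Finset.range (i + 1)).image p ∧
          t ∈ A ∪ (Finset.range (i + 1)).image p ∧ G.Adj s t) a b := fun c =>
      rtg_mono (fun a b hab =>
        ⟨Finset.mem_union_left _ hab.1, Finset.mem_union_left _ hab.2.1, hab.2.2⟩) c
    have hmix : ∀ j ≤ i, ∀ q ∈ A, ReflTransGen (fun s t => s ∈ A ∪ (Finset.range (i + 1)).image p ∧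
          t ∈ A ∪ (Finset.range (i + 1)).image p ∧ G.Adj s t) (p j) q ∨ ¬ Near G r (p j) q := by
      intro j hj q hq
      rcases hA with hA | ⟨rfl, hA⟩
      · rcases h4 _ hA q hq with c | c
        · exact Or.inl ((hp.conn _ hm j i hj le_rfl).trans (hup c))
        · refine Or.inr fun n => c ?_
          have := isP_near hp.rev (i - j) (by omega)
          simp only [Nat.sub_zero, show i - (i - j) = j by omega] at this
          exact (near_trans this.symm n).mono (by omega)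
      · obtain rfl : j = 0 := by omega
        exact Or.inr (e0 ▸ hA q hq)
    refine ⟨A ∪ (Finset.range (i + 1)).image p, fun z hz => ?_, ?_, fun a ha => ?_,
      fun a ha b hb => ?_⟩
    · by_cases e : z = x
      · exact e ▸ e0 ▸ hm 0 (by omega)
      · exact Finset.mem_union_left _ (h1 (Finset.mem_erase.2 ⟨e, hz⟩))
    · have := Finset.card_union_le A ((Finset.range (i + 1)).image p)
      have h5 : ((Finset.range (i + 1)).image p).card ≤ i + 1 :=
        Finset.card_image_le.trans (by simp)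
      omega
    · rcases Finset.mem_union.1 ha with ha | ha
      · obtain ⟨z, hz, n⟩ := h3 a ha
        exact ⟨z, Finset.mem_of_mem_erase hz, n.mono (by omega)⟩
      · obtain ⟨j, hj, rfl⟩ := Finset.mem_image.1 ha
        have hj := Finset.mem_range.1 hj
        exact ⟨x, hx, e0 ▸ (isP_near hp j (by omega)).mono (by omega)⟩
    · rcases Finset.mem_union.1 ha with ha | ha <;> rcases Finset.mem_union.1 hb with hb | hb
      · exact (h4 a ha b hb).imp hup fun c n => c (n.mono (by omega))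
      · obtain ⟨j, hj, rfl⟩ := Finset.mem_image.1 hb
        have hj := Finset.mem_range.1 hj
        exact (hmix j (by omega) a ha).imp rtg_symm fun c n => c n.symm
      · obtain ⟨j, hj, rfl⟩ := Finset.mem_image.1 ha
        have hj := Finset.mem_range.1 hj
        exact hmix j (by omega) b hb
      · obtain ⟨j, hj, rfl⟩ := Finset.mem_image.1 ha
        obtain ⟨l, hl, rfl⟩ := Finset.mem_image.1 hb
        have hj := Finset.mem_range.1 hj
        have hl := Finset.mem_range.1 hl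
        exact Or.inl ((rtg_symm (hp.conn _ hm 0 j (by omega) (by omega))).trans
          (hp.conn _ hm 0 l (by omega) (by omega)))

/-- Extension by boundedly many points. -/
theorem extend_many (d t : ℕ) : ∀ r : ℕ, ∃ R : ℕ, ∀ κ : ℕ, ∃ κ' M : ℕ,
    ∀ (V W : Type) (G : SimpleGraph V) (H : SimpleGraph W), Base d G M → Base d H M →
      ∀ S : Finset (V × W), Good G H (R + 1) S → S.card ≤ κ → ∀ T : Finset V, T.card ≤ t →
        ∃ S', S ⊆ S' ∧ Good G H (r + 1) S' ∧ S'.card ≤ κ' ∧ ∀ x ∈ T, ∃ y, (x, y) ∈ S' := by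
  classical
  induction t with
  | zero =>
    intro r
    refine ⟨r, fun κ => ⟨κ, 0, fun V W G H _ _ S hS hκ T hT => ⟨S, subset_rfl, hS, hκ, ?_⟩⟩⟩
    rw [Finset.card_eq_zero.1 (Nat.le_zero.1 hT)]; simp
  | succ t ih =>
    intro r
    obtain ⟨R, hR⟩ := ih (2 * r + 1)
    refine ⟨R, fun κ => ?_⟩
    obtain ⟨κ', M, h⟩ := hR κ
    refine ⟨κ' + (r + 1), max M (κ' * (d + 1) ^ (r + 1) + κ' + r + 3),
      fun V W G H hG hH S hS hκ T hT => ?_⟩
    rcases T.eq_empty_or_nonempty with rfl | ⟨x, hx⟩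
    · obtain ⟨S', a, b, c, -⟩ := h V W G H (hG.mono (by omega)) (hH.mono (by omega)) S hS hκ ∅
        (by simp)
      exact ⟨S', a, b.mono (by omega), by omega, by simp⟩
    obtain ⟨S', a, b, c, e⟩ := h V W G H (hG.mono (by omega)) (hH.mono (by omega)) S hS hκ
      (T.erase x) (by rw [Finset.card_erase_of_mem hx]; omega)
    obtain ⟨S'', a', b', c', e'⟩ := extend (r := r) hG hH (b.mono (by omega)) (by
      have : S'.card * (d + 1) ^ (r + 1) ≤ κ' * (d + 1) ^ (r + 1) := Nat.mul_le_mul_right _ c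
      omega) x
    refine ⟨S'', a.trans a', b', by omega, fun z hz => ?_⟩
    by_cases ez : z = x
    · exact ez ▸ e'
    · obtain ⟨y, hy⟩ := e z (Finset.mem_erase.2 ⟨ez, hz⟩)
      exact ⟨y, a' hy⟩

end Pool.Agent.Lib.MP_c527bb_lc.K
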