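import Mathlib
import Pool.Agent.Lib.MP_c527bb_lc.K.Game
import Pool.Agent.Lib.MP_c527bb_lc.K.Cay

/-!
Vertices far from a small set, and skipping vertices in a family of bijections.
-/

set_option autoImplicit false

open Finset Relation

namespace Pool.Agent.Lib.MP_c527bb_lc.K

section

variable {V : Type} {G : SimpleGraph V} {d M k ρ : ℕ} {Z : Finset V}

theorem near_uniq (hG : Base d G M) (hρ : 2 * ρ + 2 < M) {u a b z : V} (hu : ¬ Near G ρ u z)
    (ha : G.Adj u a) (hb : G.Adj u b) (na : Near G ρ a z) (nb : Near G ρ b z) : a = b := by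
  classical
  obtain ⟨i, hi, p, hp, p0, p1⟩ := na.exists_path
  obtain ⟨l, hl, q, hq, q0, q1⟩ := nb.exists_path
  let A : Finset V := (range (i + 1)).image p ∪ (range (l + 1)).image q
  have h1 : ∀ j ≤ i, p j ∈ A := fun j hj =>
    mem_union_left _ (mem_image_of_mem _ (mem_range.2 (by omega)))
  have h2 : ∀ j ≤ l, q j ∈ A := fun j hj =>
    mem_union_right _ (mem_image_of_mem _ (mem_range.2 (by omega)))
  have h3 : #A < M := by
    have e1 := card_union_le ((range (i + 1)).image p) ((range (l + 1)).image q)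
    have e2 : #((range (i + 1)).image p) ≤ _ := card_image_le
    have e3 : #((range (l + 1)).image q) ≤ _ := card_image_le
    rw [card_range] at e2 e3
    exact e1.trans_lt (by omega)
  have key : ∀ (i : ℕ) (p : ℕ → V), i ≤ ρ → IsP G i p → p i = z → u ∉ (range (i + 1)).image p := by
    intro i p hi hp e m
    obtain ⟨j, hj, f⟩ := mem_image.1 m
    have := isP_near hp.rev (i - j) (by omega)
    simp only [Nat.sub_zero, show i - (i - j) = j by have := mem_range.1 hj; omega, e, f] at this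
    exact hu (this.mono (by omega))
  refine hG.cyc A h3 u (fun m => (mem_union.1 m).elim (key i p hi hp p1) (key l q hl hq q1))
    a (p0 ▸ h1 0 (by omega)) b (q0 ▸ h2 0 (by omega)) ha hb ?_
  have e1 := hp.conn A h1 0 i (by omega) le_rfl
  have e2 := rtg_symm (hq.conn A h2 0 l (by omega) le_rfl)
  rw [p0, p1] at e1
  rw [q0, q1] at e2
  exact e1.trans e2

theorem far_big (hG : Base d G M) (hW : WDeg G M) (hρ : 2 * ρ + 2 < M) (hZ : #Z + 2 ≤ d)
    (A : Finset V) (hA : ∀ u ∈ A, Far G ρ Z u ∧ ∀ v, Far G ρ Z v → G.Adj u v → v ∈ A)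
    (hne : A.Nonempty) : M < #A := by
  classical
  by_contra hc
  obtain ⟨x, hx, hu⟩ := hW A (by omega) hne
  have h0 : #(hG.fin x).toFinset = d := by
    rw [← Set.ncard_eq_toFinset_card _ (hG.fin x), hG.reg]
  have h1 := card_filter_add_card_filter_not (s := (hG.fin x).toFinset) (Far G ρ Z)
  have h2 : #((hG.fin x).toFinset.filter (Far G ρ Z)) ≤ 1 := card_le_one.2 fun a ha b hb => by
    simp only [mem_filter, Set.Finite.mem_toFinset, SimpleGraph.mem_neighborSet] at ha hb
    exact hu a ((hA x hx).2 a ha.2 ha.1) b ((hA x hx).2 b hb.2 hb.1) ha.1 hb.1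
  have h3 : ∀ a, ∃ z, ¬ Far G ρ Z a → z ∈ Z ∧ Near G ρ a z := fun a => by
    by_cases h : Far G ρ Z a
    · exact ⟨a, fun f => absurd h f⟩
    · simp only [Far, not_forall, not_not] at h
      obtain ⟨z, h1, h2⟩ := h
      exact ⟨z, fun _ => ⟨h1, h2⟩⟩
  choose f hf using h3
  have h4 : #((hG.fin x).toFinset.filter fun a => ¬ Far G ρ Z a) ≤ #Z :=
    card_le_card_of_injOn f (fun a ha => (hf a (mem_filter.1 ha).2).1) fun a ha b hb e => by
      simp only [coe_filter, Set.Finite.mem_toFinset, SimpleGraph.mem_neighborSet,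
        Set.mem_ofPred_eq] at ha hb
      exact near_uniq hG hρ ((hA x hx).1 _ (hf a ha.2).1) ha.1 hb.1 (hf a ha.2).2
        (e ▸ (hf b hb.2).2)
  omega

theorem exists_spread (hG : Base d G M) (r j : ℕ) (hM : j * (d + 1) ^ r + 1 < M) :
    ∃ W : Finset V, #W = j ∧ ∀ a ∈ W, ∀ b ∈ W, Near G r a b → a = b := by
  classical
  induction j with
  | zero => exact ⟨∅, rfl, by simp⟩
  | succ j ih =>
    have : j * (d + 1) ^ r ≤ (j + 1) * (d + 1) ^ r := Nat.mul_le_mul_right _ (by omega)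
    obtain ⟨W, h1, h2⟩ := ih (by omega)
    obtain ⟨y, hy⟩ := hG.exists_far r W (by rw [h1]; omega)
    refine ⟨insert y W, by rw [card_insert_of_notMem fun m => hy y m (Near.refl _ _), h1],
      fun a ha b hb n => ?_⟩
    rcases mem_insert.1 ha with ha | ha <;> rcases mem_insert.1 hb with hb | hb
    · rw [ha, hb]
    · exact absurd (ha ▸ n) (hy b hb)
    · exact absurd (hb ▸ n.symm) (hy a ha)
    · exact h2 a ha b hb n

theorem Cls.conn (h : Cls d k G M) : Conn G (k + 1) := by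
  intro Z hZ x y hx hy
  have e : ∀ u, Far G 0 Z u ↔ u ∉ Z := fun u =>
    ⟨fun f m => f u m (Near.refl _ _), fun f z m ⟨p, hp⟩ =>
      f (p.eq_of_length_eq_zero (by omega) ▸ m)⟩
  have := h.even 0 (by omega) Z (by omega) x y ((e x).2 hx) ((e y).2 hy)
  induction this with
  | refl => rfl
  | tail _ hst ih =>
    obtain ⟨a, b, c, h1, h2, h3⟩ := hst
    exact (ih ((e _).1 a)).trans ((SimpleGraph.Adj.reachable (G := G.induce {u | u ∉ Z})
      (u := ⟨_, (e _).1 a⟩) (v := ⟨c, (e _).1 h1⟩) h2).trans (SimpleGraph.Adj.reachable h3))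

theorem even_of {w : V} (hw : Far G ρ Z w) (h : ∀ T : Set (V × Bool),
    (∀ q ∈ T, ∀ u, Far G ρ Z u → G.Adj q.1 u → (u, !q.2) ∈ T) → (w, false) ∈ T →
      ∀ q : V × Bool, Far G ρ Z q.1 → q ∈ T) (u v : V) (hu : Far G ρ Z u) (hv : Far G ρ Z v) :
    ReflTransGen (TwoF G ρ Z) u v := by
  have key := h {q | Far G ρ Z q.1 ∧ (q.2 = false → ReflTransGen (TwoF G ρ Z) w q.1) ∧
      (q.2 = true → ∃ y, Far G ρ Z y ∧ ReflTransGen (TwoF G ρ Z) w y ∧ G.Adj y q.1)}
    (by
      rintro ⟨x, b⟩ ⟨h1, h2, h3⟩ u hu ha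
      refine ⟨hu, fun e => ?_, fun e => ⟨x, h1, h2 (by simpa using e), ha⟩⟩
      obtain ⟨y, a, b, c⟩ := h3 (by simpa using e)
      exact b.tail ⟨a, hu, x, h1, c, ha⟩)
    ⟨hw, fun _ => .refl, by simp⟩
  have sy : ∀ a b, ReflTransGen (TwoF G ρ Z) a b → ReflTransGen (TwoF G ρ Z) b a := by
    intro a b h
    induction h with
    | refl => exact .refl
    | tail _ h ih =>
      exact .head (let ⟨h1, h2, c, h3, h4, h5⟩ := h; ⟨h2, h1, c, h3, h5.symm, h4.symm⟩) ih
  exact (sy _ _ ((key (u, false) hu).2.1 rfl)).trans ((key (v, false) hv).2.1 rfl)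

end

variable {P U : Type} {m M : ℕ}

/-- The family induced on the good points, jumping over the other points. -/
def skip (t : Let m → P → P) (g : P → Prop) [DecidablePred g] (h : ∀ i p, ¬ g p → g (t i p))
    (i : Let m) (u : {p // g p}) : {p // g p} :=
  if f : g (t i u.1) then ⟨t i u.1, f⟩ else ⟨t i (t i u.1), h _ _ f⟩

variable {t : Let m → P → P} {g : P → Prop} [DecidablePred g] {h : ∀ i p, ¬ g p → g (t i p)}

theorem skip_val (i : Let m) (u : {p // g p}) : (g (t i u.1) ∧ (skip t g h i u).1 = t i u.1) ∨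
    (¬ g (t i u.1) ∧ (skip t g h i u).1 = t i (t i u.1)) := by
  unfold skip
  split_ifs with f
  · exact Or.inl ⟨f, rfl⟩
  · exact Or.inr ⟨f, rfl⟩

theorem skip_rw {x y : {p // g p}} {i : Let m} {n : ℕ} (a : RW (skip t g h) x i n y) :
    ∃ l ≤ 2 * n, RW t x.1 i l y.1 := by
  induction a with
  | one i =>
    rcases skip_val (h := h) i x with ⟨-, e⟩ | ⟨-, e⟩ <;> rw [e]
    · exact ⟨1, by omega, .one i⟩
    · exact ⟨2, by omega, .step (.one i) (iv_ne i)⟩
  | step _ hj ih =>
    rename_i i j n y _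
    obtain ⟨l, hl, a⟩ := ih
    rcases skip_val (h := h) j y with ⟨-, e⟩ | ⟨-, e⟩ <;> rw [e]
    · exact ⟨l + 1, by omega, .step a hj⟩
    · exact ⟨l + 1 + 1, by omega, .step (.step a hj) (iv_ne j)⟩

theorem Sch.skip (ht : Sch t (2 * M)) : Sch (skip t g h) M := by
  refine ⟨fun i x => Subtype.ext ?_, fun x i n y a hn e => ?_⟩
  · rcases skip_val (h := h) (iv i) (K.skip t g h i x) with ⟨f', e'⟩ | ⟨f', e'⟩ <;>
      rcases skip_val (h := h) i x with ⟨f, e⟩ | ⟨f, e⟩ <;> rw [e, ht.inv] at f' e'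
    · exact e'
    · exact absurd f' f
    · exact absurd x.2 f'
    · rw [e', ht.inv]
  · obtain ⟨l, hl, b⟩ := skip_rw a
    exact ht.free _ _ _ _ b (by omega) (congrArg Subtype.val e)

theorem skip_near {s : Let m → U → U} {M' : ℕ} (hs : Sch s M') (hM' : 1 ≤ M')
    (ht : Sch (skip t g h) M) (hM : 1 ≤ M) (f : P → U) (hf : ∀ i x, f (t i x) = s i (f x))
    {n : ℕ} {u v : {p // g p}} (a : Near (gr (skip t g h)) n u v) :
    Near (gr s) (2 * n) (f u.1) (f v.1) := by
  obtain ⟨p, hp⟩ := a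
  induction p generalizing n with
  | nil => exact Near.refl _ _
  | cons a q ih =>
    rename_i x y z
    obtain ⟨i, rfl⟩ := (ht.adj hM).1 a
    have := ih (le_refl _)
    rw [SimpleGraph.Walk.length_cons] at hp
    have b : ∀ x, (gr s).Adj x (s i x) := fun x => (hs.adj hM').2 ⟨i, rfl⟩
    rcases skip_val (h := h) i x with ⟨-, e⟩ | ⟨-, e⟩ <;> rw [e] at this <;> simp only [hf] at this
    · exact (Near.cons (b _) this).mono (by omega)
    · exact (Near.cons (b _) (Near.cons (b _) this)).mono (by omega)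

theorem Sch.near_iter {s : Let m → U → U} (hs : Sch s M) (hM : 1 ≤ M) (i : Let m) (n : ℕ) (x : U) :
    Near (gr s) n ((s i)^[n] x) x := by
  induction n with
  | zero => exact Near.refl _ _
  | succ n ih =>
    rw [Function.iterate_succ_apply']
    exact Near.cons ((hs.adj hM).2 ⟨i, rfl⟩).symm ih

end Pool.Agent.Lib.MP_c527bb_lc.K
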