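import Mathlib
import Pool.Agent.Lib.MP_c527bb_lc.K.Far

/-!
Two copies of a graph of large girth glued along a set of far apart cut vertices.
-/

set_option autoImplicit false

open Finset Relation

namespace Pool.Agent.Lib.MP_c527bb_lc.K

variable {U : Type} [DecidableEq U] {m : ℕ}

/-- The two-sheeted lift in which the edges of the first letter at `W` change sheets. -/
def lf (s : Let m → U → U) (W : Finset U) (i : Let m) (p : U × Bool) : U × Bool :=
  (s i p.1, xor p.2 (decide (i.1.1 = 0 ∧ (p.1 ∈ W ∨ s i p.1 ∈ W))))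

/-- The points which are kept. -/
abbrev Gd (W : Finset U) (p : U × Bool) : Prop := p.1 ∈ W → p.2 = false

variable {s : Let m → U → U} {W : Finset U} {M : ℕ}

theorem Sch.lf (h : Sch s M) : Sch (lf s W) M :=
  ⟨fun i x => by
    have e : (iv i).1 = i.1 := rfl
    simp only [K.lf, h.inv, e, or_comm (a := s i x.1 ∈ W)]
    simp, fun x i n y a b e =>
    h.free _ _ _ _ (a.proj Prod.fst fun _ _ => rfl) b (congrArg Prod.fst e)⟩

theorem lf_gd (h : ∀ i, ∀ x ∈ W, s i x ∉ W) (i : Let m) (p : U × Bool) (f : ¬ Gd W p) :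
    Gd W (lf s W i p) := fun a => absurd a (h i _ (by tauto))

/-- The glued family. -/
abbrev gl (h : ∀ i, ∀ x ∈ W, s i x ∉ W) := skip (lf s W) (Gd W) (lf_gd h)

theorem gl_out (h : ∀ i, ∀ x ∈ W, s i x ∉ W) (i : Let m) (u : {p // Gd W p})
    (a : s i u.1.1 ∉ W) : (gl h i u).1 = lf s W i u.1 := by
  rcases skip_val (h := lf_gd h) i u with ⟨-, e⟩ | ⟨f, -⟩
  · exact e
  · exact absurd (fun b => absurd b a) f

theorem gl_side (h : ∀ i, ∀ x ∈ W, s i x ∉ W) (i : Let m) (u : {p // Gd W p})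
    (a : u.1.1 ∉ W) (b : (gl h i u).1.1 ∉ W) : (gl h i u).1.2 = u.1.2 := by
  rcases skip_val (h := lf_gd h) i u with ⟨-, e⟩ | ⟨f, e⟩
  · rw [e] at b ⊢
    have b' : s i u.1.1 ∉ W := b
    simp [lf, a, b']
  · have b' : s i u.1.1 ∈ W := by
      by_contra c
      exact f fun d => absurd d c
    rw [e]
    simp [lf, b']

theorem gl_not_conn (h : ∀ i, ∀ x ∈ W, s i x ∉ W) (ht : Sch (gl h) M) (hM : 1 ≤ M) {x : U}
    (hx : x ∉ W) : ¬ Conn (gr (gl h)) (#W + 1) := by
  intro hc
  let Z : Finset {p // Gd W p} := W.image fun w => ⟨(w, false), fun _ => rfl⟩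
  have hZ : ∀ u, u ∈ Z ↔ u.1.1 ∈ W := fun u =>
    ⟨fun a => by obtain ⟨w, b, rfl⟩ := mem_image.1 a; exact b,
      fun a => mem_image.2 ⟨_, a, Subtype.ext (Prod.ext rfl (u.2 a).symm)⟩⟩
  have h1 := hc Z (Nat.lt_succ_of_le card_image_le) ⟨(x, false), fun _ => rfl⟩
    ⟨(x, true), fun a => absurd a hx⟩ (fun a => hx ((hZ _).1 a)) (fun a => hx ((hZ _).1 a))
  rw [SimpleGraph.reachable_iff_reflTransGen] at h1
  have key : ∀ a b : {u | u ∉ Z}, ReflTransGen ((gr (gl h)).induce {u | u ∉ Z}).Adj a b →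
      b.1.1.2 = a.1.1.2 := by
    intro a b r
    induction r with
    | refl => rfl
    | tail _ hst ih =>
      rename_i b c _
      obtain ⟨i, e⟩ := (ht.adj hM).1 hst
      have e' : c.1 = gl h i b.1 := e
      rw [← ih, e']
      exact gl_side h i _ (fun f => b.2 ((hZ _).2 f)) fun f => c.2 ((hZ _).2 (e' ▸ f))
  simpa using key _ _ h1

theorem exists_cut (hm : 2 ≤ m) (k M : ℕ) (hk : k + 2 ≤ 2 * m) :
    ∃ (V : Type) (_ : Fintype V) (H : SimpleGraph V), Cls (2 * m) k H M ∧ ¬ Conn H (k + 2) := by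
  classical
  obtain ⟨K, hK⟩ : ∃ K, K = (k + 1 + k * (2 * m + 1) ^ M) * 2 * (2 * m) := ⟨_, rfl⟩
  obtain ⟨M1, hM1⟩ : ∃ M1, M1 = 2 * (k + 1) + 2 * K + 2 * M + 3 := ⟨_, rfl⟩
  obtain ⟨U, _, _, _, s, hs, hrob⟩ := exists_nice hm
    (2 * M1 + 4 * K + (k + 1) * (2 * m + 1) ^ (4 * (M + K + 1)) + 2) (by omega)
  have hG := hs.base (by omega) hm
  obtain ⟨W, hW, hfar⟩ := exists_spread hG (4 * (M + K + 1)) (k + 1) (by omega)
  have out : ∀ i, ∀ w ∈ W, ∀ n ≤ K, (s i)^[n + 1] w ∉ W := fun i w hw n hn a =>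
    hs.free _ _ _ _ (rw_iter w i n) (by omega)
      (hfar _ a _ hw ((hs.near_iter (by omega) i _ w).mono (by omega)))
  have h : ∀ i, ∀ x ∈ W, s i x ∉ W := fun i x hx => out i x hx 0 (by omega)
  have ht : Sch (gl h) M1 := Sch.skip ((hs.mono (by omega)).lf)
  let e : U → {p // Gd W p} := fun w => ⟨(w, false), fun _ => rfl⟩
  obtain ⟨w0, hw0⟩ := card_pos.1 (show 0 < #W by omega)
  have : Nonempty {p // Gd W p} := ⟨e w0⟩
  have hH := ht.base (by omega) hm
  have adj : ∀ i u, (gr (gl h)).Adj u (gl h i u) := fun i u => (ht.adj (by omega)).2 ⟨i, rfl⟩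
  refine ⟨{p // Gd W p}, inferInstance, gr (gl h), ⟨hH.mono (by omega), fun ρ hρ Z hZ => ?_⟩,
    by simpa only [hW] using gl_not_conn h ht (by omega) (h (⟨0, by omega⟩, true) w0 hw0)⟩
  obtain ⟨w, hw, hwf⟩ : ∃ w ∈ W, Far (gr (gl h)) (M + K + 1) Z (e w) := by
    by_contra hc
    simp only [Far, not_exists, not_and, not_forall, not_not] at hc
    choose! f hf hf' using hc
    obtain ⟨a, ha, b, hb, ne, e'⟩ := exists_ne_map_eq_of_card_lt_of_maps_to
      (show #Z < #W by omega) (fun a ha => hf a ha)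
    exact ne (hfar a ha b hb ((skip_near hs (by omega) ht (by omega) Prod.fst (fun _ _ => rfl)
      (near_trans (hf' a ha) (e' ▸ hf' b hb).symm)).mono (by omega)))
  refine even_of (w := e w) (fun z hz n => hwf z hz (n.mono (by omega))) fun T hT hwT => ?_
  let Sl : Bool → Finset (U × Bool) := fun c =>
    univ.filter fun q => q.1 ∉ W ∧ ∃ u : {p // Gd W p}, u.1 = (q.1, c) ∧ (u, q.2) ∈ T
  have mem : ∀ c q, q ∈ Sl c ↔ q.1 ∉ W ∧ ∃ u : {p // Gd W p}, u.1 = (q.1, c) ∧ (u, q.2) ∈ T :=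
    fun c q => by simp only [Sl, mem_filter, mem_univ, true_and]
  have big : ∀ c, K < #(Sl c) := by
    intro c
    obtain ⟨i, hi⟩ : ∃ i : Let m, decide (i.1.1 = 0) = c := by
      cases c
      · exact ⟨(⟨1, by omega⟩, true), rfl⟩
      · exact ⟨(⟨0, by omega⟩, true), rfl⟩
    have key : ∀ n ≤ K, ∃ (u : {p // Gd W p}) (b : Bool), u.1 = ((s i)^[n + 1] w, c) ∧
        (u, b) ∈ T ∧ Near (gr (gl h)) (n + 1) u (e w) := by
      intro n
      induction n with
      | zero =>
        intro _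
        refine ⟨gl h i (e w), _, ?_, hT _ hwT _ (fun z hz n => hwf z hz
          ((Near.cons (adj i _) n).mono (by omega))) (adj i _), Near.adj (adj i _).symm⟩
        rw [gl_out h i _ (h i w hw)]
        simp [lf, e, hw, hi]
      | succ n ih =>
        intro hn
        obtain ⟨u, b, h1, h2, h3⟩ := ih (by omega)
        have h4 := Near.cons (adj i u).symm h3
        refine ⟨gl h i u, _, ?_, hT _ h2 _ (fun z hz n => hwf z hz
          ((near_trans h4.symm n).mono (by omega))) (adj i _), h4⟩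
        have h5 := out i w hw (n + 1) hn
        have h6 := out i w hw n (by omega)
        rw [Function.iterate_succ_apply'] at h5
        rw [gl_out h i _ (by rw [h1]; exact h5), h1, Function.iterate_succ_apply' (n := n + 1)]
        simp only [lf, h5, h6]
        simp
    have h1 : (range (K + 1)).image (fun n => (s i)^[n + 1] w) ⊆ (Sl c).image Prod.fst := by
      intro y hy
      obtain ⟨n, hn, rfl⟩ := mem_image.1 hy
      have hn' : n ≤ K := by have := mem_range.1 hn; omega
      obtain ⟨u, b, h1, h2, -⟩ := key n hn'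
      exact mem_image.2 ⟨(_, b), (mem _ _).2 ⟨out i w hw n hn', u, h1, h2⟩, rfl⟩
    have h2 : ∀ a b, a < b → b ≤ K → (s i)^[a + 1] w ≠ (s i)^[b + 1] w := by
      intro a b hab hb f
      refine hs.free _ _ _ _ (rw_iter ((s i)^[a + 1] w) i (b - a - 1)) (by omega) ?_
      rw [← Function.iterate_add_apply, show b - a - 1 + 1 + (a + 1) = b + 1 by omega, f]
    have h3 := (card_le_card h1).trans card_image_le
    rw [card_image_of_injOn fun a ha b hb f => by
      have ha' := mem_range.1 (mem_coe.1 ha)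
      have hb' := mem_range.1 (mem_coe.1 hb)
      rcases lt_trichotomy a b with l | l | l
      · exact absurd f (h2 a b l (by omega))
      · exact l
      · exact absurd f.symm (h2 b a l (by omega)), card_range] at h3
    omega
  have small : ∀ c, #(Sl c)ᶜ ≤ K := by
    intro c
    refine (hrob K (by omega) (Sl c) ?_).resolve_left (big c).not_ge
    choose ball hball hmem using fun z => hH.ball z ρ
    refine (bd_le (hs.dc.base (by omega) hm)
      (B := (W ∪ (Z.biUnion ball).image fun u => u.1.1) ×ˢ univ) fun x hx y hy a => ?_).trans ?_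
    · obtain ⟨i, rfl⟩ := (hs.dc.adj (by omega)).1 a
      obtain ⟨h1, u, h2, h3⟩ := (mem _ _).1 hx
      by_contra hc
      simp only [mem_product, mem_univ, and_true, mem_union, not_or] at hc
      have h4 : s i x.1 ∉ W := hc.1
      have h5 : (gl h i u).1 = (s i x.1, c) := by
        rw [gl_out h i _ (by rw [h2]; exact h4), h2]
        simp [lf, h1, h4]
      refine hy ((mem _ _).2 ⟨h4, gl h i u, h5, hT _ h3 _ (fun z hz n => hc.2 ?_) (adj i _)⟩)
      exact mem_image.2 ⟨_, mem_biUnion.2 ⟨z, hz, hmem _ _ n⟩, (congrArg Prod.fst h5 :)⟩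
    · rw [hK, card_product, card_univ, Fintype.card_bool]
      gcongr
      refine (card_union_le _ _).trans (add_le_add hW.le (card_image_le.trans
        ((card_biUnion_le_card_mul _ _ _ fun z _ => hball z).trans ?_)))
      gcongr
      omega
  by_contra hc
  push Not at hc
  obtain ⟨q, hq, hq'⟩ := hc
  let A : Finset {p // Gd W p} := univ.filter fun u => Far (gr (gl h)) ρ Z u ∧ ∃ b, (u, b) ∉ T
  have memA : ∀ u, u ∈ A ↔ Far (gr (gl h)) ρ Z u ∧ ∃ b, (u, b) ∉ T :=
    fun u => by simp only [A, mem_filter, mem_univ, true_and]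
  have h1 := far_big hH (ht.nbw (by omega)).deg.wdeg (ρ := ρ) (Z := Z) (by omega) (by omega) A
    (fun u hu => by
      obtain ⟨a, b, c⟩ := (memA u).1 hu
      refine ⟨a, fun v hv f => (memA v).2 ⟨hv, !b, fun g => c ?_⟩⟩
      simpa using hT _ g u a f.symm) ⟨q.1, (memA _).2 ⟨hq, q.2, hq'⟩⟩
  have h2 : A.image Subtype.val ⊆ W ×ˢ univ ∪ ((Sl false)ᶜ.image (fun q => (q.1, false)) ∪
      (Sl true)ᶜ.image fun q => (q.1, true)) := by
    intro p hp
    obtain ⟨u, hu, rfl⟩ := mem_image.1 hp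
    obtain ⟨-, b, hb⟩ := (memA u).1 hu
    have : (u.1.1, b) ∈ (Sl u.1.2)ᶜ := mem_compl.2 fun f => by
      obtain ⟨-, v, f1, f2⟩ := (mem _ _).1 f
      exact hb (Subtype.ext f1 ▸ f2)
    refine mem_union_right _ ?_
    obtain ⟨⟨x, c⟩, hu⟩ := u
    cases c
    · exact mem_union_left _ (mem_image_of_mem _ this)
    · exact mem_union_right _ (mem_image_of_mem _ this)
  have h3 := (card_le_card h2).trans ((card_union_le _ _).trans (add_le_add le_rfl
    ((card_union_le _ _).trans (add_le_add (card_image_le.trans (small false))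
      (card_image_le.trans (small true))))))
  rw [card_image_of_injective _ Subtype.val_injective, card_product, card_univ,
    Fintype.card_bool] at h3
  omega

end Pool.Agent.Lib.MP_c527bb_lc.K
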