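import Mathlib
import Pool.Agent.Lib.MP_c527bb_lc.K.Game

/-!
Invariance of all formulas with `k` parameters under good finite isomorphisms.
-/

set_option autoImplicit false

open Relation

namespace Pool.Agent.Lib.MP_c527bb_lc.K

variable {V W : Type} {G : SimpleGraph V} {H : SimpleGraph W} {d k : ℕ}

/-- If an invariant relation holds of two distinct vertices far from the parameters, its
transitive closure is full far from the parameters. -/
theorem tc_full {M r C : ℕ} (hG : Cls d k G M) (R : V → V → Prop) (Z : Finset V) (hZ : Z.card ≤ k)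
    (A : Finset V) (hA : A.card ≤ C) (hn : ∀ a ∈ A, ∃ z ∈ Z, Near G C a z)
    (hs : ∀ p ∈ A, ∀ q ∈ A, ReflTransGen (fun s t => s ∈ A ∧ t ∈ A ∧ G.Adj s t) p q ∨
        ¬ Near G (r + 1) p q)
    (hM : (k + 2) * (d + 1) ^ (C + 2 * (r + 1)) + (C + 2 * (r + 1)) + 2 < M)
    (htr : ∀ S, Good G G (r + 1) S → S.card ≤ C + r + 2 → (∀ a ∈ A, (a, a) ∈ S) →
      ∀ x y u v, (x, u) ∈ S → (y, v) ∈ S → R x y → R u v)
    {x y : V} (hxy : x ≠ y) (hR : R x y) (hx : Far G (C + 2 * (r + 1)) Z x)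
    (hy : Far G (C + 2 * (r + 1)) Z y) {u v : V} (hu : Far G (C + 2 * (r + 1)) Z u)
    (hv : Far G (C + 2 * (r + 1)) Z v) : TransGen R u v := by
  classical
  have hD : Good G G (r + 1) (A.image fun a => (a, a)) := by
    refine ⟨fun p hp q hq => ?_, fun p hp q hq => ?_, fun p hp q hq => ?_⟩ <;>
      obtain ⟨a, ha, rfl⟩ := Finset.mem_image.1 hp <;>
      obtain ⟨b, hb, rfl⟩ := Finset.mem_image.1 hq
    · rfl
    · rfl
    · refine (hs a ha b hb).imp (fun c => ?_) fun c => ⟨c, c⟩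
      exact rtg_lift (fun a => (a, a)) (fun a b hab =>
        ⟨Finset.mem_image_of_mem _ hab.1, Finset.mem_image_of_mem _ hab.2.1, hab.2.2⟩) c
  have hfar : ∀ a b, Far G (C + 2 * (r + 1)) Z a → Near G (r + 1) b a → ∀ c ∈ A,
      ¬ Near G (r + 1) c b := by
    intro a b ha hb c hc n
    obtain ⟨z, hz, n'⟩ := hn c hc
    exact ha z hz ((near_trans (near_trans hb.symm n.symm) n').mono (by omega))
  have htr' : ∀ T, Good G G (r + 1) T → T.card ≤ r + 2 →
      (∀ t ∈ T, ∀ c ∈ A, ¬ Near G (r + 1) c t.1 ∧ ¬ Near G (r + 1) c t.2) →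
      ∀ u v, (x, u) ∈ T → (y, v) ∈ T → R u v := by
    intro T hT hc hf u v m1 m2
    refine htr _ (good_union hD hT fun s hs t ht => ?_) ?_
      (fun a ha => Finset.mem_union_left _ (Finset.mem_image_of_mem _ ha)) x y u v
      (Finset.mem_union_right _ m1) (Finset.mem_union_right _ m2) hR
    · obtain ⟨a, ha, rfl⟩ := Finset.mem_image.1 hs
      exact hf t ht a ha
    · have := Finset.card_union_le (A.image fun a => (a, a)) T
      have h2 : (A.image fun a => (a, a)).card ≤ A.card := Finset.card_image_le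
      omega
  by_cases hn : Near G (r + 1) x y
  · obtain ⟨i, hi, p, hp, h0, h1⟩ := hn.exists_path
    obtain ⟨i, rfl⟩ : ∃ j, i = j + 1 := by
      cases i with
      | zero => exact absurd (h0.symm.trans h1) hxy
      | succ j => exact ⟨j, rfl⟩
    have hpath : ∀ q : ℕ → V, IsP G (i + 1) q → ∀ a, Far G (C + 2 * (r + 1)) Z a →
        (∀ j ≤ i + 1, Near G (r + 1) (q j) a) → R (q 0) (q (i + 1)) := by
      intro q hq a ha hqa
      obtain ⟨S, a', b, c⟩ := good_path hG.cyc hG.cyc (i + 1) (by omega) hp hq r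
      refine htr' S a' (by omega) (fun t ht e he => ?_) _ _ ((c _).2 ⟨0, by omega, by rw [h0]⟩)
        ((c _).2 ⟨i + 1, le_rfl, by rw [h1]⟩)
      obtain ⟨j, hj, rfl⟩ := (c t).1 ht
      exact ⟨hfar x _ hx (h0 ▸ (isP_near hp j hj).mono (by omega)) e he,
        hfar a _ ha (hqa j hj) e he⟩
    have htwo : ∀ a b, Far G (C + 2 * (r + 1)) Z a → Far G (C + 2 * (r + 1)) Z b → Two G a b →
        TransGen R a b := by
      rintro a b ha hb ⟨c, hac, hcb⟩
      obtain ⟨q, q', hq, hq', e0, e0', e⟩ := hG.toBase.fork a c b hac hcb.symm i (by omega)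
      have s1 := hpath q hq a ha fun j hj => e0 ▸ (isP_near hq j hj).mono (by omega)
      have s2 := hpath _ hq'.rev b hb fun j hj =>
        e0' ▸ (isP_near hq' (i + 1 - j) (by omega)).mono (by omega)
      simp only [Nat.sub_zero, Nat.sub_self] at s2
      rw [e0, e i] at s1
      rw [e0'] at s2
      exact (TransGen.single s1).tail s2
    rcases (hG.even _ (by omega) Z hZ u v hu hv).cases_head with rfl | ⟨c, h2, h3⟩
    · obtain ⟨c, hc, -⟩ := hG.toBase.exists_nbr u u u u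
      exact htwo u u hu hu ⟨c, hc, hc.symm⟩
    · have := htwo _ _ h2.1 h2.2.1 (let ⟨e, _, a, b⟩ := h2.2.2; ⟨e, a, b⟩)
      clear h2 hv
      induction h3 with
      | refl => exact this
      | tail _ h ih => exact ih.trans (htwo _ _ h.1 h.2.1 (let ⟨e, _, a, b⟩ := h.2.2; ⟨e, a, b⟩))
  · obtain ⟨w, hw⟩ := hG.toBase.exists_far (C + 2 * (r + 1)) ({u, v} ∪ Z) (by
      have h1 := Finset.card_union_le ({u, v} : Finset V) Z
      have h2 : ({u, v} : Finset V).card ≤ 2 := Finset.card_le_two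
      have : ({u, v} ∪ Z : Finset V).card * (d + 1) ^ (C + 2 * (r + 1)) ≤
          (k + 2) * (d + 1) ^ (C + 2 * (r + 1)) := Nat.mul_le_mul_right _ (by omega)
      omega)
    have hwf : Far G (C + 2 * (r + 1)) Z w := fun z hz => hw z (Finset.mem_union_right _ hz)
    have hpair : ∀ a b : V, Far G (C + 2 * (r + 1)) Z a → Far G (C + 2 * (r + 1)) Z b →
        ¬ Near G (r + 1) a b → R a b := by
      intro a b ha hb hab
      have g1 : Good G G (r + 1) (insert (y, b) ∅) := (good_empty _).insert_far (by simp) (by simp)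
      have g2 := g1.insert_far (x := x) (y := a) (by simpa using hn) (by simpa using hab)
      refine htr' _ g2 ?_ (fun t ht e he => ?_) a b (by simp) (by simp)
      · have := Finset.card_insert_le (x, a) (insert (y, b) (∅ : Finset (V × V)))
        have h2 := Finset.card_insert_le (y, b) (∅ : Finset (V × V))
        simp only [Finset.card_empty] at h2
        omega
      · simp only [Finset.mem_insert, Finset.notMem_empty, or_false] at ht
        rcases ht with rfl | rfl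
        · exact ⟨hfar x _ hx (Near.refl _ _) e he, hfar a _ ha (Near.refl _ _) e he⟩
        · exact ⟨hfar y _ hy (Near.refl _ _) e he, hfar b _ hb (Near.refl _ _) e he⟩
    exact (TransGen.single (hpair u w hu hwf fun n => hw u (by simp) (n.symm.mono (by omega)))).tail
      (hpair w v hwf hv fun n => hw v (by simp) (n.mono (by omega)))

/-- Transfer of a transitive closure along a finite isomorphism. -/
theorem tc_transfer (R : V → V → Prop) (R' : W → W → Prop) (S : Finset (V × W))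
    (h2 : ∀ x y : V, ∃ S' : Finset (V × W), S ⊆ S' ∧
      (∀ p ∈ S', ∀ q ∈ S', (p.1 = q.1 ↔ p.2 = q.2)) ∧ (∃ u, (x, u) ∈ S') ∧ (∃ v, (y, v) ∈ S') ∧
      ∀ p ∈ S', ∀ q ∈ S', R p.1 q.1 → R' p.2 q.2)
    (full : ∀ x y, x ≠ y → R' x y → (∀ s ∈ S, s.2 ≠ x) → (∀ s ∈ S, s.2 ≠ y) →
      ∀ u v, (∀ s ∈ S, s.2 ≠ u) → (∀ s ∈ S, s.2 ≠ v) → TransGen R' u v)
    {x y : V} {u v : W} (hx : (x, u) ∈ S) (hy : (y, v) ∈ S) (h : TransGen R x y) :
    TransGen R' u v := by
  have out : ∀ S' : Finset (V × W), S ⊆ S' → (∀ p ∈ S', ∀ q ∈ S', (p.1 = q.1 ↔ p.2 = q.2)) →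
      ∀ a b, (a, b) ∈ S' → (∀ s ∈ S, s.1 ≠ a) → ∀ s ∈ S, s.2 ≠ b :=
    fun S' h1 h3 a b hab ha s hs e => ha s hs ((h3 s (h1 hs) _ hab).2 e)
  have step : ∀ y y', R y y' → ∀ v, (y, v) ∈ S → ∀ v', (y', v') ∈ S → R' v v' := by
    intro y y' hr v hv v' hv'
    obtain ⟨S', a, -, -, -, e⟩ := h2 y y
    exact e _ (a hv) _ (a hv') hr
  have key : ∀ y, ReflTransGen R x y → (∀ v, (y, v) ∈ S → ReflTransGen R' u v) ∧
      ((∀ s ∈ S, s.1 ≠ y) → ∃ p ∈ S, ReflTransGen R' u p.2 ∧ ∃ y₁, (∀ s ∈ S, s.1 ≠ y₁) ∧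
        R p.1 y₁ ∧ (y₁ = y ∨ ∀ u v, (∀ s ∈ S, s.2 ≠ u) → (∀ s ∈ S, s.2 ≠ v) → TransGen R' u v)) ∧
      ∀ y', R y y' → ∀ v', (y', v') ∈ S → TransGen R' u v' := by
    have fin : ∀ y, (∀ v, (y, v) ∈ S → ReflTransGen R' u v) →
        ((∀ s ∈ S, s.1 ≠ y) → ∃ p ∈ S, ReflTransGen R' u p.2 ∧ ∃ y₁, (∀ s ∈ S, s.1 ≠ y₁) ∧
          R p.1 y₁ ∧ (y₁ = y ∨ ∀ u v, (∀ s ∈ S, s.2 ≠ u) → (∀ s ∈ S, s.2 ≠ v) →
            TransGen R' u v)) → ∀ y', R y y' → ∀ v', (y', v') ∈ S → TransGen R' u v' := by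
      intro y i1 i2 y' hr v' hv'
      by_cases hin : ∃ s ∈ S, s.1 = y
      · obtain ⟨s, hs, rfl⟩ := hin
        exact TransGen.tail' (i1 s.2 hs) (step _ _ hr _ hs _ hv')
      · push Not at hin
        obtain ⟨p, hp, c1, y₁, c2, c3, c4⟩ := i2 hin
        obtain ⟨S', a, b, ⟨c, hc⟩, ⟨c', hc'⟩, e⟩ := h2 y₁ y
        have s1 : TransGen R' u c := TransGen.tail' c1 (e _ (a hp) _ hc c3)
        have s2 : R' c' v' := e _ hc' _ (a hv') hr
        rcases c4 with rfl | c4
        · have : c = c' := (b _ hc _ hc').1 rfl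
          exact s1.tail (this ▸ s2)
        · exact (s1.trans (c4 _ _ (out S' a b _ _ hc c2) (out S' a b _ _ hc' hin))).tail s2
    intro y hy
    induction hy with
    | refl =>
      have i1 : ∀ v, (x, v) ∈ S → ReflTransGen R' u v := by
        intro v hv
        obtain ⟨S', a, b, -⟩ := h2 x x
        have : u = v := (b _ (a hx) _ (a hv)).1 rfl
        exact this ▸ .refl
      exact ⟨i1, fun h => absurd rfl (h _ hx), fin x i1 fun h => absurd rfl (h _ hx)⟩
    | tail _ hr ih =>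
      rename_i y y' _
      have i1 : ∀ v, (y', v) ∈ S → ReflTransGen R' u v := fun v hv =>
        (ih.2.2 _ hr v hv).to_reflTransGen
      refine (fun i2 => ⟨i1, i2, fin y' i1 i2⟩) fun hout => ?_
      by_cases hin : ∃ s ∈ S, s.1 = y
      · obtain ⟨s, hs, rfl⟩ := hin
        exact ⟨s, hs, ih.1 s.2 hs, y', hout, hr, Or.inl rfl⟩
      · push Not at hin
        obtain ⟨p, hp, c1, y₁, c2, c3, c4⟩ := ih.2.1 hin
        refine ⟨p, hp, c1, y₁, c2, c3, ?_⟩
        by_cases e : y = y'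
        · exact e ▸ c4
        · obtain ⟨S', a, b, ⟨c, hc⟩, ⟨c', hc'⟩, e'⟩ := h2 y y'
          exact Or.inr (full c c' (fun f => e ((b _ hc _ hc').2 f)) (e' _ hc _ hc' hr)
            (out S' a b _ _ hc hin) (out S' a b _ _ hc' hout))
  obtain ⟨b, h1, h3⟩ := TransGen.tail'_iff.1 h
  exact (key b h1).2.2 y h3 v hy

/-- Every formula is invariant under good finite isomorphisms. -/
theorem invariant (d : ℕ) {n : ℕ} (φ : Fml k n) : ∃ r : ℕ, ∀ κ : ℕ, ∃ M : ℕ,
    ∀ (V W : Type) (G : SimpleGraph V) (H : SimpleGraph W), Cls d k G M → Cls d k H M →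
      ∀ S : Finset (V × W), Good G H (r + 1) S → S.card ≤ κ →
        ∀ (a : Fin n → V) (b : Fin n → W), (∀ i, (a i, b i) ∈ S) → Sat G φ a → Sat H φ b := by
  have hswap : ∀ {V W : Type} {S : Finset (V × W)} {a : V} {b : W},
      (b, a) ∈ S.map (Equiv.prodComm V W).toEmbedding ↔ (a, b) ∈ S := by
    intro V W S a b; simp [Finset.mem_map_equiv]
  induction φ with
  | adj i j =>
    exact ⟨0, fun _ => ⟨0, fun V W G H _ _ S hS _ a b hab h => (hS.adj _ (hab i) _ (hab j)).1 h⟩⟩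
  | eq i j =>
    exact ⟨0, fun _ => ⟨0, fun V W G H _ _ S hS _ a b hab h => (hS.inj _ (hab i) _ (hab j)).1 h⟩⟩
  | neg φ ih =>
    obtain ⟨r, hr⟩ := ih
    refine ⟨r, fun k => ?_⟩
    obtain ⟨M, hM⟩ := hr k
    refine ⟨M, fun V W G H hG hH S hS hk a b hab h h' => h ?_⟩
    exact hM W V H G hH hG _ hS.swap (by simpa using hk) b a (fun i => hswap.2 (hab i)) h'
  | conj φ ψ ih1 ih2 =>
    obtain ⟨r1, hr1⟩ := ih1
    obtain ⟨r2, hr2⟩ := ih2
    refine ⟨max r1 r2, fun k => ?_⟩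
    obtain ⟨M1, hM1⟩ := hr1 k
    obtain ⟨M2, hM2⟩ := hr2 k
    refine ⟨max M1 M2, fun V W G H hG hH S hS hk a b hab h => ⟨?_, ?_⟩⟩
    · exact hM1 V W G H (hG.mono (by omega)) (hH.mono (by omega)) S (hS.mono (by omega)) hk a b
        hab h.1
    · exact hM2 V W G H (hG.mono (by omega)) (hH.mono (by omega)) S (hS.mono (by omega)) hk a b
        hab h.2
  | ex φ ih =>
    obtain ⟨r, hr⟩ := ih
    refine ⟨2 * r + 1, fun k => ?_⟩
    obtain ⟨M, hM⟩ := hr (k + (r + 1))
    refine ⟨max M (k * (d + 1) ^ (r + 1) + k + r + 3), fun V W G H hG hH S hS hk a b hab h => ?_⟩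
    obtain ⟨x, hx⟩ := h
    obtain ⟨S', h1, h2, h3, y, h4⟩ := extend (r := r) hG.toBase hH.toBase (hS.mono (by omega)) (by
      have : S.card * (d + 1) ^ (r + 1) ≤ k * (d + 1) ^ (r + 1) := Nat.mul_le_mul_right _ hk
      omega) x
    refine ⟨y, hM V W G H (hG.mono (by omega)) (hH.mono (by omega)) S' h2 (by omega) _ _ ?_ hx⟩
    intro i
    refine Fin.cases ?_ (fun j => ?_) i
    · simpa using h4
    · simpa using h1 (hab j)
  | tc φ z s t ih =>
    classical
    obtain ⟨r, hr⟩ := ih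
    obtain ⟨C, hC⟩ := diag_many k (r + 1)
    obtain ⟨R2, hR2⟩ := extend_many d 2 r
    obtain ⟨R0, hR0⟩ := extend_many d (k * (d + 1) ^ (C + 2 * (r + 1))) R2
    refine ⟨R0, fun κ => ?_⟩
    obtain ⟨κ0, M0, h0⟩ := hR0 κ
    obtain ⟨κ2, M2, h2⟩ := hR2 κ0
    obtain ⟨M3, h3⟩ := hr κ2
    obtain ⟨M4, h4⟩ := hr (C + r + 2)
    refine ⟨max (max (max M0 M2) (max M3 M4))
      ((k + 2) * (d + 1) ^ (C + 2 * (r + 1)) + (C + 2 * (r + 1)) + 3),
      fun V W G H hG hH S hS hk a b hab h => ?_⟩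
    have hcons : ∀ {V W : Type} (S : Finset (V × W)) (f : Fin k → V) (g : Fin k → W) x y u v,
        (x, u) ∈ S → (y, v) ∈ S → (∀ i, (f i, g i) ∈ S) → ∀ i : Fin (k + 1 + 1),
        ((Fin.cons x (Fin.cons y f) : Fin (k + 1 + 1) → V) i,
          (Fin.cons u (Fin.cons v g) : Fin (k + 1 + 1) → W) i) ∈ S := by
      intro V W S f g x y u v m1 m2 m3 i
      refine Fin.cases (by simpa using m1) (fun j => Fin.cases ?_ (fun l => ?_) j) i
      · simpa using m2
      · simpa using m3 l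
    let Z : Finset W := Finset.univ.image fun i => b (z i)
    have hZ : Z.card ≤ k := Finset.card_image_le.trans (by simp)
    choose ball hball hmem using fun w => hH.toBase.ball w (C + 2 * (r + 1))
    obtain ⟨S0, a0, b0, c0, e0⟩ := h0 W V H G (hH.toBase.mono (by omega))
      (hG.toBase.mono (by omega)) _ hS.swap (by simpa using hk) (Z.biUnion ball)
      ((Finset.card_biUnion_le_card_mul _ _ _ fun w _ => hball w).trans
        (Nat.mul_le_mul_right _ hZ))
    have hsub : ∀ x u, (x, u) ∈ S → (x, u) ∈ S0.map (Equiv.prodComm W V).toEmbedding :=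
      fun x u m => hswap.2 (a0 (hswap.2 m))
    have hfar : ∀ u, (∀ s ∈ S0.map (Equiv.prodComm W V).toEmbedding, s.2 ≠ u) →
        Far H (C + 2 * (r + 1)) Z u := by
      intro u hu w hw n
      obtain ⟨y, hy⟩ := e0 u (Finset.mem_biUnion.2 ⟨w, hw, hmem w u n⟩)
      exact hu _ (hswap.2 hy) rfl
    obtain ⟨A, a1, a2, a3, a4⟩ := hC W H Z hZ
    refine tc_transfer _ _ (S0.map (Equiv.prodComm W V).toEmbedding) (fun x y => ?_)
      (fun x y hxy hR hx hy u v hu hv => ?_) (hsub _ _ (hab s)) (hsub _ _ (hab t)) h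
    · obtain ⟨S', b1, b2, b3, b4⟩ := h2 V W G H (hG.toBase.mono (by omega))
        (hH.toBase.mono (by omega)) _ b0.swap (by simpa using c0) {x, y} Finset.card_le_two
      refine ⟨S', b1, b2.inj, b4 x (by simp), b4 y (by simp), fun p hp q hq hpq => ?_⟩
      exact h3 V W G H (hG.mono (by omega)) (hH.mono (by omega)) S' b2 b3 _ _
        (hcons S' _ _ _ _ _ _ hp hq fun i => b1 (hsub _ _ (hab (z i)))) hpq
    · refine tc_full (r := r) hH _ Z hZ A a2 a3 a4 (by omega)
        (fun S' g c e x y u v m1 m2 hr => ?_) hxy hR (hfar _ hx) (hfar _ hy) (hfar _ hu)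
        (hfar _ hv)
      exact h4 W W H H (hH.mono (by omega)) (hH.mono (by omega)) S' g c _ _
        (hcons S' _ _ _ _ _ _ m1 m2 fun i => e _ (a1 (Finset.mem_image_of_mem _
          (Finset.mem_univ i)))) hr

/-- A sentence cannot separate two graphs of the class. -/
theorem sentence (d : ℕ) (ψ : Fml k 0) : ∃ M : ℕ, ∀ (V W : Type) (G : SimpleGraph V)
    (H : SimpleGraph W), Cls d k G M → Cls d k H M → Sat G ψ ![] → Sat H ψ ![] := by
  obtain ⟨r, hr⟩ := invariant d ψ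
  obtain ⟨M, hM⟩ := hr 0
  exact ⟨M, fun V W G H hG hH h => hM V W G H hG hH ∅ (good_empty _) (by simp) _ _
    (fun i => i.elim0) h⟩

end Pool.Agent.Lib.MP_c527bb_lc.K
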